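import Mathlib

set_option autoImplicit false

/-! The real arithmetic of the bound. -/

namespace Pool.Agent.EI28

/-- The factorised inequality. -/
theorem arith1 {n p kp lam rho err : ℝ} (hn : 1 ≤ n) (hp : 2 ≤ p) (hl0 : 0 ≤ lam)
    (hl1 : lam < 1) (hk : kp = 1 + (p - 1) * lam) (hrho : rho * kp = n * p) (herr : 0 ≤ err)
    (hA : (n * (n + 1) / 2 - 1) * p ≤
      (1 + (p - 1) * lam ^ 2) * (rho ^ 2 / 2 + rho / 2 - p + err)) :
    2 * n * p ≤ rho * (rho + 2 - n) + 2 * n * err ∧ n ≤ rho := by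
  have hk1 : 1 ≤ kp := by rw [hk]; nlinarith
  have hkp : kp < p := by rw [hk]; nlinarith
  have hk0 : 0 < kp := by linarith
  have hrn : n ≤ rho := by
    by_contra hlt
    push Not at hlt
    have : rho * kp < n * kp := by nlinarith
    nlinarith
  refine ⟨?_, hrn⟩
  have hr0 : 0 < rho := by linarith
  -- `(p - 1) lam rho = n p - rho`
  have e1 : (p - 1) * lam * rho = n * p - rho := by
    have : (p - 1) * lam = kp - 1 := by rw [hk]; ring
    rw [this, ← hrho]; ring
  have e2 : (p - 1) * rho ^ 2 * (1 + (p - 1) * lam ^ 2) =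
      p * (rho ^ 2 + n ^ 2 * p - 2 * n * rho) := by
    have : (p - 1) * rho ^ 2 * (1 + (p - 1) * lam ^ 2) =
        (p - 1) * rho ^ 2 + ((p - 1) * lam * rho) ^ 2 := by ring
    rw [this, e1]; ring
  have h1 : (p - 1) * rho ^ 2 * ((n * (n + 1) / 2 - 1) * p) ≤
      p * ((rho ^ 2 + n ^ 2 * p - 2 * n * rho) * (rho ^ 2 / 2 + rho / 2 - p + err)) := by
    have h0 : 0 ≤ (p - 1) * rho ^ 2 := by
      apply mul_nonneg
      · linarith
      · positivity
    have := mul_le_mul_of_nonneg_left hA h0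
    calc _ ≤ _ := this
      _ = ((p - 1) * rho ^ 2 * (1 + (p - 1) * lam ^ 2)) * (rho ^ 2 / 2 + rho / 2 - p + err) := by
          ring
      _ = _ := by rw [e2]; ring
  have h2 : (p - 1) * rho ^ 2 * (n * (n + 1) / 2 - 1) ≤
      (rho ^ 2 + n ^ 2 * p - 2 * n * rho) * (rho ^ 2 / 2 + rho / 2 - p + err) := by
    have hp0 : 0 < p := by linarith
    apply le_of_mul_le_mul_left _ hp0
    calc _ = (p - 1) * rho ^ 2 * ((n * (n + 1) / 2 - 1) * p) := by ring
      _ ≤ _ := h1
  set Y := n * p + rho * (rho - n - 1) with hY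
  have h3 : (2 * n * p - rho * (rho + 2 - n)) * Y ≤
      2 * ((rho ^ 2 + n ^ 2 * p - 2 * n * rho) * err) := by
    have : (2 * n * p - rho * (rho + 2 - n)) * Y = 2 * ((p - 1) * rho ^ 2 * (n * (n + 1) / 2 - 1)
        - (rho ^ 2 + n ^ 2 * p - 2 * n * rho) * (rho ^ 2 / 2 + rho / 2 - p)) := by
      rw [hY]; ring
    rw [this]
    nlinarith
  have hYpos : 0 < Y := by
    have : Y = rho * ((kp - 1) + (rho - n)) := by rw [hY, ← hrho]; ring
    rw [this]
    apply mul_pos hr0
    by_cases hc : kp = 1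
    · have : rho = n * p := by rw [← hrho, hc]; ring
      rw [this, hc]; nlinarith
    · have : 1 < kp := lt_of_le_of_ne hk1 (Ne.symm hc)
      linarith
  have hW : rho ^ 2 + n ^ 2 * p - 2 * n * rho ≤ n * Y := by
    have : n * Y - (rho ^ 2 + n ^ 2 * p - 2 * n * rho) = (n - 1) * (rho * (rho - n)) := by
      rw [hY]; ring
    have h0 : 0 ≤ (n - 1) * (rho * (rho - n)) :=
      mul_nonneg (by linarith) (mul_nonneg hr0.le (by linarith))
    linarith
  have h4 : (2 * n * p - rho * (rho + 2 - n)) * Y ≤ (2 * n * err) * Y := by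
    calc _ ≤ 2 * ((rho ^ 2 + n ^ 2 * p - 2 * n * rho) * err) := h3
      _ ≤ 2 * ((n * Y) * err) := by
          have := mul_le_mul_of_nonneg_right hW herr
          linarith
      _ = _ := by ring
  have h5 := le_of_mul_le_mul_right h4 hYpos
  linarith

/-- The final estimate. -/
theorem arith2 {n p r kp lam rho M B : ℝ} (hn : 1 ≤ n) (hr : 32 * n ^ 3 ≤ r) (hp : 2 ≤ p)
    (hl0 : 0 ≤ lam) (hl1 : lam < 1) (hk : kp = 1 + (p - 1) * lam) (hrho : rho * kp = n * p)
    (hrn : n ≤ rho) (hrr : rho ≤ r)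
    (hM : M = kp + n * (1 - lam) * (r - 1) / 2)
    (hlam : 2 * ((p - 1) * lam) ≤ (1 + lam) * (n * (r - 1)))
    (hB : B = M * (M + 2 * kp) / kp ^ 2 * (1 / 2 + 2 * kp * lam / (n * (1 - lam))))
    (h1 : 2 * n * p ≤ rho * (rho + 2 - n) + 2 * n * ((r - rho) * B)) :
    2 * n * p ≤ r * (r + 2 - n) := by
  by_contra hcon
  push Not at hcon
  have hn0 : 0 < n := by linarith
  have hn3 : n ≤ n ^ 3 := by
    have : 0 ≤ n * (n - 1) * (n + 1) := by
      apply mul_nonneg (mul_nonneg _ _) <;> linarith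
    linarith [this, (by ring : n * (n - 1) * (n + 1) = n ^ 3 - n)]
  have hr32 : 32 * n ≤ r := by linarith
  have hr0 : 0 < r := by linarith
  have hk1 : 1 ≤ kp := by rw [hk]; nlinarith
  have hk0 : 0 < kp := by linarith
  have hr31 : 31 / 32 * r ≤ r + 2 - n := by linarith
  -- lower bound for kp
  have hnp : n * p ≤ r * kp := by rw [← hrho]; exact mul_le_mul_of_nonneg_right hrr hk0.le
  have hnp2 : 31 / 64 * r ^ 2 ≤ n * p := by nlinarith
  have hkl : 31 / 64 * r ≤ kp := by
    have : r * (31 / 64 * r) ≤ r * kp := by nlinarith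
    exact le_of_mul_le_mul_left this hr0
  -- lam is small
  have hlam15 : lam ≤ 1 / 15 := by
    have a1 : (r - n) * (r + 2) ≤ 2 * n * (p - 1) := by nlinarith
    have a2 : lam * ((r - n) * (r + 2)) ≤ 2 * n * ((p - 1) * lam) := by
      have := mul_le_mul_of_nonneg_left a1 hl0
      linarith
    have a3 : (p - 1) * lam ≤ n * (r - 1) := by
      have : (1 + lam) * (n * (r - 1)) ≤ 2 * (n * (r - 1)) := by
        apply mul_le_mul_of_nonneg_right
        · linarith
        · apply mul_nonneg hn0.le; linarith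
      linarith
    have a4 : lam * ((r - n) * (r + 2)) ≤ 2 * n ^ 2 * (r + 2) := by
      calc _ ≤ 2 * n * ((p - 1) * lam) := a2
        _ ≤ 2 * n * (n * (r - 1)) := by
            apply mul_le_mul_of_nonneg_left a3; linarith
        _ ≤ 2 * n ^ 2 * (r + 2) := by nlinarith
    have a5 : lam * (r - n) ≤ 2 * n ^ 2 := by
      have h2 : 0 < r + 2 := by linarith
      apply le_of_mul_le_mul_right _ h2
      linarith
    have a6 : 31 * n ^ 3 ≤ r - n := by linarith
    have a7 : lam * (31 * n ^ 3) ≤ 2 * n ^ 2 := by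
      have := mul_le_mul_of_nonneg_left a6 hl0
      linarith
    by_contra hc
    push Not at hc
    have a8 : n ^ 2 ≤ n ^ 3 := by
      have : 0 ≤ n ^ 2 * (n - 1) := mul_nonneg (by positivity) (by linarith)
      linarith [this, (by ring : n ^ 2 * (n - 1) = n ^ 3 - n ^ 2)]
    have a9 : 0 < n ^ 2 := by positivity
    have a10 : 1 / 15 * (31 * n ^ 3) ≤ lam * (31 * n ^ 3) :=
      mul_le_mul_of_nonneg_right hc.le (by positivity)
    linarith
  -- upper bound for kp
  have hku : kp ≤ 11 / 20 * (n * r) := by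
    have a1 : (p - 1) * lam ≤ 8 / 15 * (n * (r - 1)) := by
      have h0 : 0 ≤ n * (r - 1) := by
        apply mul_nonneg hn0.le; linarith
      have : (1 + lam) * (n * (r - 1)) ≤ (16 / 15) * (n * (r - 1)) := by
        apply mul_le_mul_of_nonneg_right _ h0
        linarith
      linarith
    have a2 : n * (r - 1) = n * r - n := by ring
    have a3 : 32 ≤ n * r := by nlinarith
    rw [a2] at a1
    rw [hk]
    linarith
  have hMu : M ≤ kp + n * r / 2 := by
    rw [hM]
    have : n * (1 - lam) * (r - 1) ≤ n * r := by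
      have h1 : (1 - lam) * (r - 1) ≤ r := by nlinarith
      calc n * (1 - lam) * (r - 1) = n * ((1 - lam) * (r - 1)) := by ring
        _ ≤ n * r := mul_le_mul_of_nonneg_left h1 hn0.le
    linarith
  have hM0 : 0 ≤ M := by
    rw [hM]
    have : 0 ≤ n * (1 - lam) * (r - 1) := by
      apply mul_nonneg
      · apply mul_nonneg hn0.le; linarith
      · linarith
    linarith
  have hnr : 0 < n * r := by positivity
  have hMM : M * (M + 2 * kp) ≤ 2.2575 * (n * r) ^ 2 := by
    have b1 : M ≤ 1.05 * (n * r) := by linarith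
    have b2 : M + 2 * kp ≤ 2.15 * (n * r) := by linarith
    calc M * (M + 2 * kp) ≤ (1.05 * (n * r)) * (2.15 * (n * r)) := by
          apply mul_le_mul b1 b2
          · linarith
          · positivity
      _ = _ := by ring
  -- the second factor
  have hp0 : 0 < p := by linarith
  have hnp0 : 0 < n * p := by positivity
  have hlk : lam * p ≤ kp := by rw [hk]; nlinarith
  have h2f : 1 / 2 + 2 * kp * lam / (n * (1 - lam)) ≤ 1 / 2 + 15 / 7 * (kp ^ 2 / (n * p)) := by
    have c1 : 2 * kp * lam / (n * (1 - lam)) ≤ 15 / 7 * (kp ^ 2 / (n * p)) := by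
      rw [← mul_div_assoc, div_le_div_iff₀ (mul_pos hn0 (by linarith)) hnp0]
      have c2 : 2 * kp * lam * (n * p) ≤ 2 * kp * (n * kp) := by
        have : 2 * kp * lam * (n * p) = 2 * kp * n * (lam * p) := by ring
        rw [this]
        have := mul_le_mul_of_nonneg_left hlk (by positivity : 0 ≤ 2 * kp * n)
        linarith
      have c3 : 2 * kp * (n * kp) ≤ 15 / 7 * kp ^ 2 * (n * (1 - lam)) := by
        have : 15 / 7 * kp ^ 2 * (n * (1 - lam)) = (kp ^ 2 * n) * (15 / 7 * (1 - lam)) := by ring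
        rw [this]
        have : 2 * kp * (n * kp) = (kp ^ 2 * n) * 2 := by ring
        rw [this]
        apply mul_le_mul_of_nonneg_left _ (by positivity)
        linarith
      linarith
    linarith
  have hkk : kp ^ 2 ≥ (31 / 64) ^ 2 * r ^ 2 := by
    have : (31 / 64 * r) ^ 2 ≤ kp ^ 2 := by
      apply pow_le_pow_left₀ _ hkl
      positivity
    nlinarith
  have hBu : B ≤ 15 * n ^ 2 := by
    have d0 : 0 ≤ M * (M + 2 * kp) / kp ^ 2 := by positivity
    have d1 : B ≤ M * (M + 2 * kp) / kp ^ 2 * (1 / 2 + 15 / 7 * (kp ^ 2 / (n * p))) := by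
      rw [hB]; exact mul_le_mul_of_nonneg_left h2f d0
    have d2 : M * (M + 2 * kp) / kp ^ 2 * (1 / 2 + 15 / 7 * (kp ^ 2 / (n * p))) =
        M * (M + 2 * kp) * (1 / (2 * kp ^ 2) + 15 / 7 * (1 / (n * p))) := by
      field_simp
    have d3 : 1 / (2 * kp ^ 2) ≤ 2.14 / r ^ 2 := by
      rw [div_le_div_iff₀ (by positivity) (by positivity)]
      nlinarith
    have d4 : 1 / (n * p) ≤ 2.07 / r ^ 2 := by
      rw [div_le_div_iff₀ (by positivity) (by positivity)]
      nlinarith
    have d5 : M * (M + 2 * kp) * (1 / (2 * kp ^ 2) + 15 / 7 * (1 / (n * p))) ≤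
        2.2575 * (n * r) ^ 2 * (2.14 / r ^ 2 + 15 / 7 * (2.07 / r ^ 2)) := by
      apply mul_le_mul hMM _ (by positivity) (by positivity)
      linarith
    have d6 : 2.2575 * (n * r) ^ 2 * (2.14 / r ^ 2 + 15 / 7 * (2.07 / r ^ 2)) ≤ 15 * n ^ 2 := by
      have : 2.2575 * (n * r) ^ 2 * (2.14 / r ^ 2 + 15 / 7 * (2.07 / r ^ 2)) =
          (2.2575 * (2.14 + 15 / 7 * 2.07)) * n ^ 2 := by
        field_simp
      rw [this]
      apply mul_le_mul_of_nonneg_right _ (by positivity)
      norm_num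
    linarith
  -- conclusion
  have e1 : (r - rho) * (r + rho + 2 - n) < 2 * n * ((r - rho) * B) := by nlinarith
  have e2 : 0 ≤ r - rho := by linarith
  have e3 : 2 * n * ((r - rho) * B) ≤ (r - rho) * (30 * n ^ 3) := by
    have : 2 * n * ((r - rho) * B) = (r - rho) * (2 * n * B) := by ring
    rw [this]
    apply mul_le_mul_of_nonneg_left _ e2
    have := mul_le_mul_of_nonneg_left hBu (by linarith : 0 ≤ 2 * n)
    nlinarith
  have e4 : (r - rho) * (30 * n ^ 3) ≤ (r - rho) * (r + rho + 2 - n) := by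
    apply mul_le_mul_of_nonneg_left _ e2
    have : 0 < n ^ 3 := by positivity
    linarith
  linarith

end Pool.Agent.EI28
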