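import Pool.Agent.EI28.Tensor

set_option autoImplicit false
set_option linter.unusedSectionVars false

/-! Moments of a configuration of equi-isoclinic projections given by real matrices. -/

namespace Pool.Agent.EI28

open Matrix Finset

variable {m ι : Type*} [Fintype m] [DecidableEq m] [Fintype ι] [DecidableEq ι]

/-- Symmetric idempotent real matrices of trace `n` with `P i * P j * P i = lam * P i`. -/
structure MCfg (n lam : ℝ) (P : ι → Matrix m m ℝ) : Prop where
  sym : ∀ i, (P i)ᵀ = P i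
  idem : ∀ i, P i * P i = P i
  tr : ∀ i, trace (P i) = n
  iso : ∀ i j, i ≠ j → P i * P j * P i = lam • P i

/-- `1 + (p - 1) lam` -/
noncomputable def kap (ι : Type*) [Fintype ι] (lam : ℝ) : ℝ := 1 + ((Fintype.card ι : ℝ) - 1) * lam

theorem sum_pair (A B : ℝ) :
    ∑ i : ι, ∑ j : ι, (if i = j then A else B) =
      Fintype.card ι * A + Fintype.card ι * ((Fintype.card ι : ℝ) - 1) * B := by
  have h : ∀ i : ι, ∑ j : ι, (if i = j then A else B) = A + ((Fintype.card ι : ℝ) - 1) * B := by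
    intro i
    have : ∀ j : ι, (if i = j then A else B) = (if i = j then (A - B) else 0) + B := by
      intro j; split_ifs <;> ring
    simp only [this, sum_add_distrib, sum_ite_eq, mem_univ, if_true, sum_const, card_univ,
      nsmul_eq_mul]
    ring
  simp only [h, sum_const, card_univ, nsmul_eq_mul]
  ring

namespace MCfg

variable {n lam : ℝ} {P : ι → Matrix m m ℝ} (h : MCfg n lam P)

include h

theorem trPP {i j : ι} (hij : i ≠ j) : trace (P i * P j) = n * lam := by
  have : trace (P i * P j) = trace (P i * P j * P i) := by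
    rw [trace_mul_cycle, h.idem]
  rw [this, h.iso i j hij, trace_smul, h.tr, smul_eq_mul, mul_comm]

theorem trPP' (i j : ι) : trace (P i * P j) = if i = j then n else n * lam := by
  split_ifs with hij
  · rw [← hij, h.idem, h.tr]
  · exact h.trPP hij

theorem trPPPP' (i j : ι) : trace (P i * P j * P i * P j) = if i = j then n else n * lam ^ 2 := by
  split_ifs with hij
  · rw [← hij, h.idem, h.idem, h.idem, h.tr]
  · rw [h.iso i j hij, smul_mul_assoc, trace_smul, h.trPP hij, smul_eq_mul]; ring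

theorem PSP (i : ι) : P i * (∑ j, P j) * P i = kap ι lam • P i := by
  rw [mul_sum, sum_mul]
  have : ∀ j, P i * P j * P i = (if i = j then (1 - lam) else 0) • P i + lam • P i := by
    intro j
    by_cases hij : i = j
    · subst hij; rw [h.idem, h.idem, if_pos rfl, ← add_smul]; simp
    · rw [h.iso i j hij, if_neg hij]; simp
  simp only [this, sum_add_distrib, ← sum_smul, sum_ite_eq, mem_univ, if_true, sum_const,
    card_univ]
  rw [← Nat.cast_smul_eq_nsmul ℝ, smul_eq_mul, ← add_smul]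
  congr 1
  unfold kap; ring

theorem Ssym : (∑ j, P j)ᵀ = ∑ j, P j := by
  rw [transpose_sum]
  exact sum_congr rfl fun i _ => h.sym i

theorem trPS (i : ι) : trace (P i * ∑ j, P j) = n * kap ι lam := by
  have : trace (P i * ∑ j, P j) = trace (P i * (∑ j, P j) * P i) := by
    rw [trace_mul_cycle, h.idem]
  rw [this, h.PSP, trace_smul, h.tr, smul_eq_mul, mul_comm]

theorem trSP (i : ι) : trace ((∑ j, P j) * P i) = n * kap ι lam := by
  rw [trace_mul_comm, h.trPS]

theorem trPSPS (i : ι) : trace (P i * (∑ j, P j) * P i * ∑ j, P j) = n * kap ι lam ^ 2 := by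
  rw [h.PSP, smul_mul_assoc, trace_smul, h.trPS, smul_eq_mul]; ring

theorem trSPSP (i : ι) : trace ((∑ j, P j) * P i * (∑ j, P j) * P i) = n * kap ι lam ^ 2 := by
  rw [mul_assoc, mul_assoc, ← mul_assoc (P i), h.PSP, mul_smul_comm, trace_smul, h.trSP,
    smul_eq_mul]; ring

theorem trS : trace (∑ j, P j) = n * Fintype.card ι := by
  rw [trace_sum]
  simp only [h.tr, sum_const, card_univ, nsmul_eq_mul, mul_comm]

theorem trSS : trace ((∑ j, P j) * ∑ j, P j) = n * Fintype.card ι * kap ι lam := by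
  rw [sum_mul, trace_sum]
  simp only [h.trPS, sum_const, card_univ, nsmul_eq_mul]; ring

/-- the inequality obtained from a nonnegative square of 4-tensors -/
theorem tensor_sq (g t d : ℝ) :
    0 ≤ ((n * Fintype.card ι * kap ι lam) ^ 2 +
        trace ((∑ j, P j) * (∑ j, P j) * (∑ j, P j) * ∑ j, P j)) / 2
      + g ^ 2 * (n * Fintype.card ι * kap ι lam) ^ 2
      + t ^ 2 * (Fintype.card ι * ((n ^ 2 + n) / 2)
        + Fintype.card ι * ((Fintype.card ι : ℝ) - 1) * ((n ^ 2 + n) / 2 * lam ^ 2))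
      + d ^ 2 * (Fintype.card ι * n ^ 2
        + Fintype.card ι * ((Fintype.card ι : ℝ) - 1) * (n ^ 2 * lam ^ 2))
      + 2 * g * trace ((∑ j, P j) * (∑ j, P j) * (∑ j, P j) * ∑ j, P j)
      - 2 * t * (Fintype.card ι * ((n ^ 2 + n) / 2 * kap ι lam ^ 2))
      + 2 * d * (Fintype.card ι * (n * kap ι lam ^ 2))
      - 2 * g * t * (Fintype.card ι * (n * kap ι lam ^ 2))
      + 2 * g * d * (Fintype.card ι * (n * kap ι lam) ^ 2)
      - 2 * t * d * (Fintype.card ι * n
        + Fintype.card ι * ((Fintype.card ι : ℝ) - 1) * (n * lam ^ 2)) := by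
  set S := ∑ j, P j with hS
  have hSs : Sᵀ = S := h.Ssym
  set G1 := ∑ j, sig (P j) with hG1
  set G2 := ∑ j, tau (P j) with hG2
  have a11 : sig S ⬝ᵥ sig S = ((n * Fintype.card ι * kap ι lam) ^ 2 + trace (S * S * S * S)) / 2 := by
    rw [sig_sig S S hSs hSs, h.trSS]
  have a12 : sig S ⬝ᵥ tau S = trace (S * S * S * S) := sig_tau S S hSs hSs
  have a22 : tau S ⬝ᵥ tau S = (n * Fintype.card ι * kap ι lam) ^ 2 := by
    rw [tau_tau S S hSs, h.trSS]
  have b1 : sig S ⬝ᵥ G1 = Fintype.card ι * ((n ^ 2 + n) / 2 * kap ι lam ^ 2) := by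
    rw [hG1, dotProduct_sum]
    have : ∀ j, sig S ⬝ᵥ sig (P j) = (n ^ 2 + n) / 2 * kap ι lam ^ 2 := by
      intro j
      rw [sig_sig S (P j) hSs (h.sym j), h.trSP, h.trSPSP]; ring
    simp only [this, sum_const, card_univ, nsmul_eq_mul]
  have b2 : sig S ⬝ᵥ G2 = Fintype.card ι * (n * kap ι lam ^ 2) := by
    rw [hG2, dotProduct_sum]
    have : ∀ j, sig S ⬝ᵥ tau (P j) = n * kap ι lam ^ 2 := by
      intro j
      rw [sig_tau S (P j) hSs (h.sym j), h.trSPSP]
    simp only [this, sum_const, card_univ, nsmul_eq_mul]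
  have b3 : G1 ⬝ᵥ tau S = Fintype.card ι * (n * kap ι lam ^ 2) := by
    rw [hG1, sum_dotProduct]
    have : ∀ j, sig (P j) ⬝ᵥ tau S = n * kap ι lam ^ 2 := by
      intro j
      rw [sig_tau (P j) S (h.sym j) hSs, h.trPSPS]
    simp only [this, sum_const, card_univ, nsmul_eq_mul]
  have b4 : tau S ⬝ᵥ G2 = Fintype.card ι * (n * kap ι lam) ^ 2 := by
    rw [hG2, dotProduct_sum]
    have : ∀ j, tau S ⬝ᵥ tau (P j) = (n * kap ι lam) ^ 2 := by
      intro j
      rw [tau_tau S (P j) (h.sym j), h.trSP]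
    simp only [this, sum_const, card_univ, nsmul_eq_mul]
  have c11 : G1 ⬝ᵥ G1 = Fintype.card ι * ((n ^ 2 + n) / 2)
        + Fintype.card ι * ((Fintype.card ι : ℝ) - 1) * ((n ^ 2 + n) / 2 * lam ^ 2) := by
    rw [hG1, sum_dotProduct, ← sum_pair]
    refine sum_congr rfl fun i _ => ?_
    rw [dotProduct_sum]
    refine sum_congr rfl fun j _ => ?_
    rw [sig_sig _ _ (h.sym i) (h.sym j), h.trPP', h.trPPPP']
    split_ifs <;> ring
  have c12 : G1 ⬝ᵥ G2 = Fintype.card ι * n
        + Fintype.card ι * ((Fintype.card ι : ℝ) - 1) * (n * lam ^ 2) := by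
    rw [hG1, hG2, sum_dotProduct, ← sum_pair]
    refine sum_congr rfl fun i _ => ?_
    rw [dotProduct_sum]
    refine sum_congr rfl fun j _ => ?_
    rw [sig_tau _ _ (h.sym i) (h.sym j), h.trPPPP']
  have c22 : G2 ⬝ᵥ G2 = Fintype.card ι * n ^ 2
        + Fintype.card ι * ((Fintype.card ι : ℝ) - 1) * (n ^ 2 * lam ^ 2) := by
    rw [hG2, sum_dotProduct, ← sum_pair]
    refine sum_congr rfl fun i _ => ?_
    rw [dotProduct_sum]
    refine sum_congr rfl fun j _ => ?_
    rw [tau_tau _ _ (h.sym j), h.trPP']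
    split_ifs <;> ring
  have key : 0 ≤ (sig S + g • tau S - t • G1 + d • G2) ⬝ᵥ (sig S + g • tau S - t • G1 + d • G2) := by
    rw [dotProduct]
    exact sum_nonneg fun i _ => mul_self_nonneg _
  have expand : (sig S + g • tau S - t • G1 + d • G2) ⬝ᵥ (sig S + g • tau S - t • G1 + d • G2)
      = sig S ⬝ᵥ sig S + g ^ 2 * (tau S ⬝ᵥ tau S) + t ^ 2 * (G1 ⬝ᵥ G1) + d ^ 2 * (G2 ⬝ᵥ G2)
        + 2 * g * (sig S ⬝ᵥ tau S) - 2 * t * (sig S ⬝ᵥ G1) + 2 * d * (sig S ⬝ᵥ G2)
        - 2 * g * t * (G1 ⬝ᵥ tau S) + 2 * g * d * (tau S ⬝ᵥ G2) - 2 * t * d * (G1 ⬝ᵥ G2) := by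
    simp only [add_dotProduct, sub_dotProduct, dotProduct_add, dotProduct_sub, smul_dotProduct,
      dotProduct_smul, smul_eq_mul]
    rw [dotProduct_comm (tau S) (sig S), dotProduct_comm G1 (sig S), dotProduct_comm G2 (sig S),
      dotProduct_comm (tau S) G1, dotProduct_comm G2 (tau S), dotProduct_comm G2 G1]
    ring
  rw [expand, a11, a12, a22, b1, b2, b3, b4, c11, c12, c22] at key
  exact key

end MCfg

end Pool.Agent.EI28
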