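import Mathlib

set_option autoImplicit false

/-! The real data attached to a family of equi-isoclinic subspaces. -/

namespace Pool.Agent.EI28

/-- `p` equi-isoclinic `n`-subspaces of `ℝ^m` with parameter `lam`; `kp * (1 + u a)` are the
eigenvalues of the sum of the projections. -/
structure RData (m : Type*) [Fintype m] (n p lam kp : ℝ) (u : m → ℝ) : Prop where
  lam0 : 0 ≤ lam
  lam1 : lam < 1
  two : 2 ≤ p
  kap : kp = 1 + (p - 1) * lam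
  neg : ∀ a, -1 ≤ u a
  sum : (∑ a, u a) = - (∑ a, u a ^ 2)
  rho : ((Fintype.card m : ℝ) - (∑ a, u a ^ 2)) * kp = n * p
  top : ∀ a, kp * u a ≤ n * (1 - lam) * ((Fintype.card m : ℝ) - 1) / 2
  lamb : 2 * ((p - 1) * lam) ≤ (1 + lam) * (n * ((Fintype.card m : ℝ) - 1))
  master : ∀ th ga : ℝ,
    (n * (n + 1) / 2 - 1) * p / (1 + (p - 1) * lam ^ 2) + p ≤
      (Fintype.card m : ℝ) * ((Fintype.card m : ℝ) + 1) / 2
      - 2 * th * ((Fintype.card m : ℝ) + 1) * (∑ a, u a ^ 2)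
      + ga * ((∑ a, u a ^ 2) ^ 2 + (∑ a, u a ^ 2))
      + th ^ 2 * (((Fintype.card m : ℝ) + 2) * (∑ a, u a ^ 2) + (∑ a, u a ^ 2) ^ 2)
      + 2 * th * ga * ((∑ a, u a ^ 3) - (∑ a, u a ^ 2) ^ 2)
      + ga ^ 2 * ((∑ a, u a ^ 2) ^ 2 + (∑ a, u a ^ 4)) / 2
      + 2 * lam * kp / ((1 - lam) * n) *
        (2 * th * ((∑ a, u a ^ 2) + (∑ a, u a ^ 3))
          + ga * ((∑ a, u a ^ 2) + 2 * (∑ a, u a ^ 3) + (∑ a, u a ^ 4)))

end Pool.Agent.EI28
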