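import Pool.Agent.EI28.Core

set_option autoImplicit false
set_option linter.unusedSectionVars false

/-! The frame inequality and its consequences. -/

namespace Pool.Agent.EI28

open Matrix Finset

variable {m ι : Type*} [Fintype m] [DecidableEq m] [Fintype ι] [DecidableEq ι]

namespace MCfg

variable {n lam : ℝ} {P : ι → Matrix m m ℝ} (h : MCfg n lam P)

include h

/-- frame inequality for the matrices `P i` -/
theorem frame (hn : 0 < n) (hl : lam < 1) (hk : 0 < kap ι lam) (X : Matrix m m ℝ) (hX : Xᵀ = X) :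
    ∑ i, (trace (X * P i)) ^ 2 - lam / kap ι lam * (trace (X * ∑ j, P j)) ^ 2 ≤
      n * (1 - lam) * trace (X * X) := by
  set A := trace (X * ∑ j, P j) with hA
  set x : ι → ℝ := fun i => trace (X * P i) with hx
  have hAx : A = ∑ i, x i := by rw [hA, mul_sum, trace_sum]
  set k := kap ι lam with hkdef
  set z : ι → ℝ := fun i => x i - lam / k * A with hz
  set Z := ∑ i, z i • P i with hZ
  have hZs : Zᵀ = Z := by
    rw [hZ, transpose_sum]
    refine sum_congr rfl fun i _ => ?_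
    rw [transpose_smul, h.sym]
  set t := n * (1 - lam) with ht
  have htpos : 0 < t := mul_pos hn (by linarith)
  -- nonnegativity
  have key : 0 ≤ trace ((t • X - Z) * (t • X - Z)) := by
    have hs : (t • X - Z)ᵀ = t • X - Z := by rw [transpose_sub, transpose_smul, hX, hZs]
    rw [trace2 _ _ hs]
    exact sum_nonneg fun a _ => sum_nonneg fun b _ => mul_self_nonneg _
  have hXZ : trace (X * Z) = ∑ i, z i * x i := by
    rw [hZ, mul_sum, trace_sum]
    refine sum_congr rfl fun i _ => ?_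
    rw [mul_smul_comm, trace_smul, smul_eq_mul]
  have hZZ : trace (Z * Z) = n * (1 - lam) * ∑ i, z i ^ 2 + n * lam * (∑ i, z i) ^ 2 := by
    rw [hZ, sum_mul, trace_sum]
    have : ∀ i, trace (z i • P i * ∑ j, z j • P j) =
        n * (1 - lam) * z i ^ 2 + n * lam * (z i * ∑ j, z j) := by
      intro i
      rw [mul_sum, trace_sum]
      have h1 : ∀ j, trace (z i • P i * z j • P j) =
          (if i = j then n * (1 - lam) * (z i * z j) else 0) + n * lam * (z i * z j) := by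
        intro j
        rw [smul_mul_assoc, mul_smul_comm, trace_smul, trace_smul, h.trPP']
        simp only [smul_eq_mul]
        split_ifs <;> ring
      simp only [h1, sum_add_distrib, sum_ite_eq, mem_univ, if_true]
      rw [← mul_sum, ← mul_sum]; ring
    simp only [this, sum_add_distrib, ← mul_sum, ← sum_mul]
    ring
  have hexp : trace ((t • X - Z) * (t • X - Z)) =
      t ^ 2 * trace (X * X) - 2 * t * trace (X * Z) + trace (Z * Z) := by
    rw [sub_mul, mul_sub, mul_sub, trace_sub, trace_sub, trace_sub]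
    simp only [smul_mul_assoc, mul_smul_comm, trace_smul, smul_eq_mul]
    rw [trace_mul_comm Z X]; ring
  have hsz : ∑ i, z i = A * (1 - lam) / k := by
    simp only [hz, sum_sub_distrib, ← hAx, sum_const, card_univ, nsmul_eq_mul]
    field_simp
    rw [hkdef]; unfold kap; ring
  have hszx : ∑ i, z i * x i = ∑ i, x i ^ 2 - lam / k * A ^ 2 := by
    have : ∀ i, z i * x i = x i ^ 2 - lam / k * A * x i := fun i => by simp only [hz]; ring
    simp only [this, sum_sub_distrib, ← mul_sum, ← hAx]; ring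
  have hsz2 : ∑ i, z i ^ 2 = ∑ i, x i ^ 2 - 2 * (lam / k) * A ^ 2 +
      Fintype.card ι * (lam / k * A) ^ 2 := by
    have : ∀ i, z i ^ 2 = x i ^ 2 - 2 * (lam / k * A) * x i + (lam / k * A) ^ 2 :=
      fun i => by simp only [hz]; ring
    simp only [this, sum_sub_distrib, sum_add_distrib, ← mul_sum, ← hAx, sum_const, card_univ,
      nsmul_eq_mul]; ring
  have hp : (Fintype.card ι : ℝ) * lam = k - 1 + lam := by rw [hkdef]; unfold kap; ring
  have hZZ2 : trace (Z * Z) = t * (∑ i, x i ^ 2 - lam / k * A ^ 2) := by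
    rw [hZZ, hsz, hsz2, ht]
    have e : (Fintype.card ι : ℝ) * (lam / k * A) ^ 2 =
        (Fintype.card ι * lam) * (lam * A ^ 2 / k ^ 2) := by field_simp
    rw [e, hp]
    field_simp
    ring
  rw [hexp, hZZ2, hXZ, hszx] at key
  have : 0 ≤ t * (t * trace (X * X) - (∑ i, x i ^ 2 - lam / k * A ^ 2)) := by
    calc 0 ≤ _ := key
      _ = _ := by ring
  have := nonneg_of_mul_nonneg_right this htpos
  linarith

end MCfg

theorem sym_dot {A : Matrix m m ℝ} (hA : Aᵀ = A) (u v : m → ℝ) :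
    (A *ᵥ u) ⬝ᵥ v = u ⬝ᵥ (A *ᵥ v) := by
  rw [dotProduct_mulVec, ← mulVec_transpose, hA]

theorem trX (e f : m → ℝ) {A : Matrix m m ℝ} (hA : Aᵀ = A) :
    trace ((vecMulVec e f + vecMulVec f e) * A) = 2 * (f ⬝ᵥ (A *ᵥ e)) := by
  rw [add_mul, trace_add, vecMulVec_mul, vecMulVec_mul, trace_vecMulVec, trace_vecMulVec,
    ← mulVec_transpose, ← mulVec_transpose, hA, ← sym_dot hA e f, dotProduct_comm (A *ᵥ e) f]
  ring

theorem trXX (e f : m → ℝ) (he : e ⬝ᵥ e = 1) (hef : f ⬝ᵥ e = 0) :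
    trace ((vecMulVec e f + vecMulVec f e) * (vecMulVec e f + vecMulVec f e)) =
      2 * (f ⬝ᵥ f) := by
  have hs : (vecMulVec e f + vecMulVec f e)ᵀ = vecMulVec e f + vecMulVec f e := by
    rw [transpose_add, transpose_vecMulVec, transpose_vecMulVec, add_comm]
  rw [trX e f hs, add_mulVec, vecMulVec_mulVec, vecMulVec_mulVec, he, hef]
  simp

namespace MCfg

variable {n lam : ℝ} {P : ι → Matrix m m ℝ} (h : MCfg n lam P)

include h

/-- `P i e` has squared norm `e ⬝ P i e` -/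
theorem normsq (i : ι) (e : m → ℝ) : (P i *ᵥ e) ⬝ᵥ (P i *ᵥ e) = e ⬝ᵥ (P i *ᵥ e) := by
  rw [sym_dot (h.sym i), mulVec_mulVec, h.idem]

/-- the inequality (L) -/
theorem ineqL (hn : 0 < n) (hl : lam < 1) (hk : 0 < kap ι lam) (e : m → ℝ) (he : e ⬝ᵥ e = 1) :
    2 * ∑ i, (e ⬝ᵥ (P i *ᵥ e) - (e ⬝ᵥ (P i *ᵥ e)) ^ 2)
      - 2 * (lam / kap ι lam * (((∑ j, P j) *ᵥ e) ⬝ᵥ ((∑ j, P j) *ᵥ e)
        - (e ⬝ᵥ ((∑ j, P j) *ᵥ e)) ^ 2)) ≤
      n * (1 - lam) * ((Fintype.card m : ℝ) - 1) := by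
  set S := ∑ j, P j with hS
  have hSs : Sᵀ = S := h.Ssym
  set f : m → m → ℝ := fun b => Pi.single b 1 - e b • e with hf
  have hfe : ∀ b, f b ⬝ᵥ e = 0 := by
    intro b
    simp only [hf, sub_dotProduct, smul_dotProduct, he, single_one_dotProduct, smul_eq_mul]
    ring
  have hff : ∑ b, f b ⬝ᵥ f b = (Fintype.card m : ℝ) - 1 := by
    have : ∀ b, f b ⬝ᵥ f b = 1 - e b * e b := by
      intro b
      have h1 : f b ⬝ᵥ f b = f b ⬝ᵥ Pi.single b 1 - e b * (f b ⬝ᵥ e) := by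
        have h2 : f b ⬝ᵥ (Pi.single b 1 - e b • e) = f b ⬝ᵥ Pi.single b 1 - e b * (f b ⬝ᵥ e) := by
          rw [dotProduct_sub, dotProduct_smul, smul_eq_mul]
        exact h2
      rw [h1, hfe, dotProduct_single_one]
      simp only [hf, Pi.sub_apply, Pi.single_eq_same, Pi.smul_apply, smul_eq_mul]
      ring
    simp only [this, sum_sub_distrib, sum_const, card_univ, nsmul_eq_mul, mul_one]
    rw [dotProduct] at he
    rw [he]
  have hfv : ∀ v : m → ℝ, ∑ b, (f b ⬝ᵥ v) ^ 2 = v ⬝ᵥ v - (e ⬝ᵥ v) ^ 2 := by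
    intro v
    have : ∀ b, (f b ⬝ᵥ v) ^ 2 = v b * v b - 2 * (e ⬝ᵥ v) * (e b * v b)
        + (e ⬝ᵥ v) ^ 2 * (e b * e b) := by
      intro b
      simp only [hf, sub_dotProduct, smul_dotProduct, single_one_dotProduct, smul_eq_mul]
      ring
    simp only [this, sum_add_distrib, sum_sub_distrib, ← mul_sum]
    rw [dotProduct] at he
    rw [he]
    simp only [dotProduct]
    ring
  have hb : ∀ b, ∑ i, (2 * (f b ⬝ᵥ (P i *ᵥ e))) ^ 2 -
      lam / kap ι lam * (2 * (f b ⬝ᵥ (S *ᵥ e))) ^ 2 ≤ n * (1 - lam) * (2 * (f b ⬝ᵥ f b)) := by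
    intro b
    have hs : (vecMulVec e (f b) + vecMulVec (f b) e)ᵀ = vecMulVec e (f b) + vecMulVec (f b) e := by
      rw [transpose_add, transpose_vecMulVec, transpose_vecMulVec, add_comm]
    have := h.frame hn hl hk (vecMulVec e (f b) + vecMulVec (f b) e) hs
    rw [trXX e (f b) he (hfe b), trX e (f b) hSs] at this
    simp only [trX e (f b) (h.sym _)] at this
    exact this
  have hsum := sum_le_sum fun b (_ : b ∈ (univ : Finset m)) => hb b
  have hl1 : ∑ b, ∑ i, (2 * (f b ⬝ᵥ (P i *ᵥ e))) ^ 2 =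
      4 * ∑ i, (e ⬝ᵥ (P i *ᵥ e) - (e ⬝ᵥ (P i *ᵥ e)) ^ 2) := by
    rw [sum_comm, mul_sum]
    refine sum_congr rfl fun i _ => ?_
    have : ∀ b, (2 * (f b ⬝ᵥ (P i *ᵥ e))) ^ 2 = 4 * (f b ⬝ᵥ (P i *ᵥ e)) ^ 2 := fun b => by ring
    simp only [this, ← mul_sum, hfv, h.normsq]
  have hl2 : ∑ b, lam / kap ι lam * (2 * (f b ⬝ᵥ (S *ᵥ e))) ^ 2 =
      4 * (lam / kap ι lam * ((S *ᵥ e) ⬝ᵥ (S *ᵥ e) - (e ⬝ᵥ (S *ᵥ e)) ^ 2)) := by
    have : ∀ b, lam / kap ι lam * (2 * (f b ⬝ᵥ (S *ᵥ e))) ^ 2 =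
        4 * (lam / kap ι lam) * (f b ⬝ᵥ (S *ᵥ e)) ^ 2 := fun b => by ring
    simp only [this, ← mul_sum, hfv]; ring
  have hl3 : ∑ b, n * (1 - lam) * (2 * (f b ⬝ᵥ f b)) =
      2 * (n * (1 - lam) * ((Fintype.card m : ℝ) - 1)) := by
    rw [← mul_sum, ← mul_sum, hff]; ring
  rw [sum_sub_distrib, hl1, hl2, hl3] at hsum
  linarith

end MCfg

end Pool.Agent.EI28
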