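import Pool.Agent.EI28.Arith
import Pool.Agent.EI28.Data

set_option autoImplicit false

/-! The bound for `r ≥ 32 n ^ 3`. -/

namespace Pool.Agent.EI28

open Finset

theorem RData.general {m : Type*} [Fintype m] {n p lam kp : ℝ} {u : m → ℝ}
    (h : RData m n p lam kp u) (hn : 1 ≤ n) (hr : 32 * n ^ 3 ≤ Fintype.card m) :
    2 * n * p ≤ (Fintype.card m : ℝ) * ((Fintype.card m : ℝ) + 2 - n) := by
  set r : ℝ := (Fintype.card m : ℝ) with hrdef
  have hn3 : 1 ≤ n ^ 3 := one_le_pow₀ hn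
  have hr1 : 1 ≤ r := by linarith
  have hkp : kp = 1 + (p - 1) * lam := h.kap
  have hp2 : 2 ≤ p := h.two
  have hl0 : 0 ≤ lam := h.lam0
  have hl1 : lam < 1 := h.lam1
  have hk1 : 1 ≤ kp := by
    rw [hkp]
    have : 0 ≤ (p - 1) * lam := mul_nonneg (by linarith) hl0
    linarith
  have hk0 : 0 < kp := by linarith
  set D := ∑ a, u a ^ 2 with hD
  set w3 := ∑ a, u a ^ 3 with hw3
  set w4 := ∑ a, u a ^ 4 with hw4
  have hD0 : 0 ≤ D := sum_nonneg fun a _ => sq_nonneg _
  set rho := r - D with hrho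
  have hrk : rho * kp = n * p := h.rho
  set c := 2 * lam * kp / ((1 - lam) * n) with hc
  have hc0 : 0 ≤ c := by
    apply div_nonneg
    · positivity
    · exact mul_nonneg (by linarith) (by linarith)
  set M := kp + n * (1 - lam) * (r - 1) / 2 with hM
  have hM1 : ∀ a, 1 + u a ≤ M / kp := by
    intro a
    rw [le_div_iff₀ hk0]
    have := h.top a
    rw [hM]
    linarith
  have hX : 3 * D + 4 * w3 + w4 ≤ D * (M * (M + 2 * kp) / kp ^ 2) := by
    have e1 : 3 * D + 4 * w3 + w4 = ∑ a, u a ^ 2 * ((1 + u a) * (3 + u a)) := by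
      rw [hD, hw3, hw4, mul_sum, mul_sum, ← sum_add_distrib, ← sum_add_distrib]
      exact sum_congr rfl fun a _ => by ring
    rw [e1, hD, sum_mul]
    refine sum_le_sum fun a _ => ?_
    apply mul_le_mul_of_nonneg_left _ (sq_nonneg _)
    have h1 := hM1 a
    have h2 := h.neg a
    have e2 : M * (M + 2 * kp) / kp ^ 2 = (M / kp) * (M / kp + 2) := by field_simp
    rw [e2]
    apply mul_le_mul h1 _ (by linarith) (by linarith)
    linarith
  have hX0 : 0 ≤ 3 * D + 4 * w3 + w4 := by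
    have e1 : 3 * D + 4 * w3 + w4 = ∑ a, u a ^ 2 * ((1 + u a) * (3 + u a)) := by
      rw [hD, hw3, hw4, mul_sum, mul_sum, ← sum_add_distrib, ← sum_add_distrib]
      exact sum_congr rfl fun a _ => by ring
    rw [e1]
    refine sum_nonneg fun a _ => ?_
    have h2 := h.neg a
    exact mul_nonneg (sq_nonneg _) (mul_nonneg (by linarith) (by linarith))
  set err := (1 / 2 + c) * (3 * D + 4 * w3 + w4) with herr
  have herr0 : 0 ≤ err := mul_nonneg (by linarith) hX0
  have hq0 : 0 < 1 + (p - 1) * lam ^ 2 := by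
    have : 0 ≤ (p - 1) * lam ^ 2 := mul_nonneg (by linarith) (sq_nonneg _)
    linarith
  have hmas := h.master 1 1
  rw [← hrdef, ← hD, ← hw3, ← hw4, ← hc] at hmas
  have hA : (n * (n + 1) / 2 - 1) * p ≤
      (1 + (p - 1) * lam ^ 2) * (rho ^ 2 / 2 + rho / 2 - p + err) := by
    have h1 : (n * (n + 1) / 2 - 1) * p / (1 + (p - 1) * lam ^ 2) ≤
        rho ^ 2 / 2 + rho / 2 - p + err := by
      rw [herr, hrho]
      linarith
    rw [div_le_iff₀ hq0] at h1
    linarith
  obtain ⟨h1, hrn⟩ := arith1 hn hp2 hl0 hl1 hkp hrk herr0 hA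
  have hBeq : (r - rho) * (M * (M + 2 * kp) / kp ^ 2 *
      (1 / 2 + 2 * kp * lam / (n * (1 - lam)))) =
      (D * (M * (M + 2 * kp) / kp ^ 2)) * (1 / 2 + c) := by
    have : 2 * kp * lam / (n * (1 - lam)) = c := by rw [hc]; ring
    rw [this, hrho]; ring
  have herr2 : err ≤ (r - rho) * (M * (M + 2 * kp) / kp ^ 2 *
      (1 / 2 + 2 * kp * lam / (n * (1 - lam)))) := by
    rw [hBeq, herr, mul_comm]
    exact mul_le_mul_of_nonneg_right hX (by linarith)
  refine arith2 hn hr hp2 hl0 hl1 hkp hrk hrn (by linarith) hM h.lamb rfl ?_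
  have := mul_le_mul_of_nonneg_left herr2 (by linarith : 0 ≤ 2 * n)
  linarith

end Pool.Agent.EI28
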