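import Pool.Agent.EI28.Core

set_option autoImplicit false
set_option linter.unusedSectionVars false

/-! The master inequality. -/

namespace Pool.Agent.EI28

open Matrix Finset

variable {m ι : Type*} [Fintype m] [DecidableEq m] [Fintype ι] [DecidableEq ι]

namespace MCfg

variable {n lam : ℝ} {P : ι → Matrix m m ℝ} (h : MCfg n lam P)

include h

/-- the inequality obtained from a nonnegative square of 4-tensors -/
theorem tensor_sq' (K0 : m × m × m × m → ℝ) (g t d : ℝ) :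
    0 ≤ K0 ⬝ᵥ K0
      + g ^ 2 * (n * Fintype.card ι * kap ι lam) ^ 2
      + t ^ 2 * (Fintype.card ι * ((n ^ 2 + n) / 2)
        + Fintype.card ι * ((Fintype.card ι : ℝ) - 1) * ((n ^ 2 + n) / 2 * lam ^ 2))
      + d ^ 2 * (Fintype.card ι * n ^ 2
        + Fintype.card ι * ((Fintype.card ι : ℝ) - 1) * (n ^ 2 * lam ^ 2))
      + 2 * g * (K0 ⬝ᵥ tau (∑ j, P j))
      - 2 * t * (K0 ⬝ᵥ ∑ j, sig (P j))
      + 2 * d * (K0 ⬝ᵥ ∑ j, tau (P j))
      - 2 * g * t * (Fintype.card ι * (n * kap ι lam ^ 2))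
      + 2 * g * d * (Fintype.card ι * (n * kap ι lam) ^ 2)
      - 2 * t * d * (Fintype.card ι * n
        + Fintype.card ι * ((Fintype.card ι : ℝ) - 1) * (n * lam ^ 2)) := by
  set S := ∑ j, P j with hS
  have hSs : Sᵀ = S := h.Ssym
  set G1 := ∑ j, sig (P j) with hG1
  set G2 := ∑ j, tau (P j) with hG2
  have a22 : tau S ⬝ᵥ tau S = (n * Fintype.card ι * kap ι lam) ^ 2 := by
    rw [tau_tau S S hSs, h.trSS]
  have b3 : G1 ⬝ᵥ tau S = Fintype.card ι * (n * kap ι lam ^ 2) := by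
    rw [hG1, sum_dotProduct]
    have : ∀ j, sig (P j) ⬝ᵥ tau S = n * kap ι lam ^ 2 := by
      intro j
      rw [sig_tau (P j) S (h.sym j) hSs, h.trPSPS]
    simp only [this, sum_const, card_univ, nsmul_eq_mul]
  have b4 : tau S ⬝ᵥ G2 = Fintype.card ι * (n * kap ι lam) ^ 2 := by
    rw [hG2, dotProduct_sum]
    have : ∀ j, tau S ⬝ᵥ tau (P j) = (n * kap ι lam) ^ 2 := by
      intro j
      rw [tau_tau S (P j) (h.sym j), h.trSP]
    simp only [this, sum_const, card_univ, nsmul_eq_mul]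
  have c11 : G1 ⬝ᵥ G1 = Fintype.card ι * ((n ^ 2 + n) / 2)
        + Fintype.card ι * ((Fintype.card ι : ℝ) - 1) * ((n ^ 2 + n) / 2 * lam ^ 2) := by
    rw [hG1, sum_dotProduct, ← sum_pair]
    refine sum_congr rfl fun i _ => ?_
    rw [dotProduct_sum]
    refine sum_congr rfl fun j _ => ?_
    rw [sig_sig _ _ (h.sym i) (h.sym j), h.trPP', h.trPPPP']
    split_ifs <;> ring
  have c12 : G1 ⬝ᵥ G2 = Fintype.card ι * n
        + Fintype.card ι * ((Fintype.card ι : ℝ) - 1) * (n * lam ^ 2) := by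
    rw [hG1, hG2, sum_dotProduct, ← sum_pair]
    refine sum_congr rfl fun i _ => ?_
    rw [dotProduct_sum]
    refine sum_congr rfl fun j _ => ?_
    rw [sig_tau _ _ (h.sym i) (h.sym j), h.trPPPP']
  have c22 : G2 ⬝ᵥ G2 = Fintype.card ι * n ^ 2
        + Fintype.card ι * ((Fintype.card ι : ℝ) - 1) * (n ^ 2 * lam ^ 2) := by
    rw [hG2, sum_dotProduct, ← sum_pair]
    refine sum_congr rfl fun i _ => ?_
    rw [dotProduct_sum]
    refine sum_congr rfl fun j _ => ?_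
    rw [tau_tau _ _ (h.sym j), h.trPP']
    split_ifs <;> ring
  have key : 0 ≤ (K0 + g • tau S - t • G1 + d • G2) ⬝ᵥ (K0 + g • tau S - t • G1 + d • G2) := by
    rw [dotProduct]
    exact sum_nonneg fun i _ => mul_self_nonneg _
  have expand : (K0 + g • tau S - t • G1 + d • G2) ⬝ᵥ (K0 + g • tau S - t • G1 + d • G2)
      = K0 ⬝ᵥ K0 + g ^ 2 * (tau S ⬝ᵥ tau S) + t ^ 2 * (G1 ⬝ᵥ G1) + d ^ 2 * (G2 ⬝ᵥ G2)
        + 2 * g * (K0 ⬝ᵥ tau S) - 2 * t * (K0 ⬝ᵥ G1) + 2 * d * (K0 ⬝ᵥ G2)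
        - 2 * g * t * (G1 ⬝ᵥ tau S) + 2 * g * d * (tau S ⬝ᵥ G2) - 2 * t * d * (G1 ⬝ᵥ G2) := by
    simp only [add_dotProduct, sub_dotProduct, dotProduct_add, dotProduct_sub, smul_dotProduct,
      dotProduct_smul, smul_eq_mul]
    rw [dotProduct_comm (tau S) K0, dotProduct_comm G1 K0, dotProduct_comm G2 K0,
      dotProduct_comm (tau S) G1, dotProduct_comm G2 (tau S), dotProduct_comm G2 G1]
    ring
  rw [expand, a22, b3, b4, c11, c12, c22] at key
  exact key

/-- Consequence of `tensor_sq'` for a tensor `K0` with `⟨K0, g_j⟩ = N`. -/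
theorem master_aux (hn : 0 < n) (hl0 : 0 ≤ lam) (hl : lam < 1) (hp : 2 ≤ Fintype.card ι)
    (K0 : m × m × m × m → ℝ) (k11 kS : ℝ) (h11 : K0 ⬝ᵥ K0 = k11)
    (hkS : K0 ⬝ᵥ tau (∑ j, P j) = kS)
    (h1 : K0 ⬝ᵥ ∑ j, sig (P j) = Fintype.card ι * ((n ^ 2 + n) / 2))
    (h2 : K0 ⬝ᵥ ∑ j, tau (P j) = Fintype.card ι * n) :
    (n * (n + 1) / 2 - 1) * Fintype.card ι / (1 + ((Fintype.card ι : ℝ) - 1) * lam ^ 2)
      + Fintype.card ι ≤
      k11 - 2 / (n * (1 - lam)) * (n * Fintype.card ι - lam / kap ι lam * kS)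
        + 2 * Fintype.card ι := by
  set p : ℝ := (Fintype.card ι : ℝ) with hpdef
  have hp2 : (2 : ℝ) ≤ p := by rw [hpdef]; exact_mod_cast hp
  set k := kap ι lam with hk
  have hk' : k = 1 + (p - 1) * lam := rfl
  have hk0 : 0 < k := by rw [hk']; nlinarith
  set q := 1 + (p - 1) * lam ^ 2 with hq
  have hq0 : 0 < q := by
    have : 0 ≤ (p - 1) * lam ^ 2 := mul_nonneg (by linarith) (sq_nonneg _)
    linarith
  have h1l : 0 < 1 - lam := by linarith
  have hsq := h.tensor_sq' K0 (lam / (k * (n * (1 - lam)))) (1 / q)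
    ((1 / q) / n - 1 / (n * (1 - lam)))
  rw [h11, hkS, h1, h2, ← hpdef, ← hk] at hsq
  have hid : (n * (n + 1) / 2 - 1) * p / q + p + (k11
      + (lam / (k * (n * (1 - lam)))) ^ 2 * (n * p * k) ^ 2
      + (1 / q) ^ 2 * (p * ((n ^ 2 + n) / 2)
        + p * (p - 1) * ((n ^ 2 + n) / 2 * lam ^ 2))
      + ((1 / q) / n - 1 / (n * (1 - lam))) ^ 2 * (p * n ^ 2
        + p * (p - 1) * (n ^ 2 * lam ^ 2))
      + 2 * (lam / (k * (n * (1 - lam)))) * kS
      - 2 * (1 / q) * (p * ((n ^ 2 + n) / 2))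
      + 2 * ((1 / q) / n - 1 / (n * (1 - lam))) * (p * n)
      - 2 * (lam / (k * (n * (1 - lam)))) * (1 / q) * (p * (n * k ^ 2))
      + 2 * (lam / (k * (n * (1 - lam)))) * ((1 / q) / n - 1 / (n * (1 - lam))) *
        (p * (n * k) ^ 2)
      - 2 * (1 / q) * ((1 / q) / n - 1 / (n * (1 - lam))) * (p * n
        + p * (p - 1) * (n * lam ^ 2))) =
      k11 - 2 / (n * (1 - lam)) * (n * p - lam / k * kS) + 2 * p := by
    have hqe : (p - 1) * lam ^ 2 = q - 1 := by rw [hq]; ring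
    have e1 : p * ((n ^ 2 + n) / 2) + p * (p - 1) * ((n ^ 2 + n) / 2 * lam ^ 2) =
        p * ((n ^ 2 + n) / 2) * q := by rw [hq]; ring
    have e2 : p * n ^ 2 + p * (p - 1) * (n ^ 2 * lam ^ 2) = p * n ^ 2 * q := by rw [hq]; ring
    have e3 : p * n + p * (p - 1) * (n * lam ^ 2) = p * n * q := by rw [hq]; ring
    rw [e1, e2, e3]
    have e4 : lam ^ 2 * p ^ 2 + p * q - 2 * lam * k * p = p * (1 - lam) ^ 2 := by
      rw [hq, hk']; ring
    have hqne : q ≠ 0 := hq0.ne'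
    have hkne : k ≠ 0 := hk0.ne'
    have hnne : n ≠ 0 := hn.ne'
    have hlne : (1 - lam) ≠ 0 := h1l.ne'
    have e5 : (lam / (k * (n * (1 - lam)))) ^ 2 * (n * p * k) ^ 2 =
        lam ^ 2 * p ^ 2 / (1 - lam) ^ 2 := by
      field_simp
    have e6 : ((1 / q) / n - 1 / (n * (1 - lam))) ^ 2 * (p * n ^ 2 * q) =
        p / q - 2 * p / (1 - lam) + p * q / (1 - lam) ^ 2 := by
      field_simp
      ring
    have e7 : 2 * (lam / (k * (n * (1 - lam)))) * ((1 / q) / n - 1 / (n * (1 - lam))) *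
        (p * (n * k) ^ 2) = 2 * lam * k * p / (q * (1 - lam)) -
          2 * lam * k * p / (1 - lam) ^ 2 := by
      field_simp
    have e8 : 2 * (lam / (k * (n * (1 - lam)))) * (1 / q) * (p * (n * k ^ 2)) =
        2 * lam * k * p / (q * (1 - lam)) := by
      field_simp
    have e9 : 2 * (1 / q) * ((1 / q) / n - 1 / (n * (1 - lam))) * (p * n * q) =
        2 * p / q - 2 * p / (1 - lam) := by
      field_simp
    have e10 : lam ^ 2 * p ^ 2 / (1 - lam) ^ 2 + p * q / (1 - lam) ^ 2 -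
        2 * lam * k * p / (1 - lam) ^ 2 = p := by
      rw [← add_div, ← sub_div, e4]
      field_simp
    have e11 : (1 / q) ^ 2 * (p * ((n ^ 2 + n) / 2) * q) = p * ((n ^ 2 + n) / 2) / q := by
      field_simp
    rw [e5, e6, e7, e8, e9, e11]
    have e12 : 2 * (1 / q) * (p * ((n ^ 2 + n) / 2)) = 2 * (p * ((n ^ 2 + n) / 2) / q) := by
      ring
    have e13 : 2 * ((1 / q) / n - 1 / (n * (1 - lam))) * (p * n) =
        2 * p / q - 2 * p / (1 - lam) := by
      field_simp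
    have e14 : (n * (n + 1) / 2 - 1) * p / q = p * ((n ^ 2 + n) / 2) / q - p / q := by
      field_simp
    have e15 : 2 / (n * (1 - lam)) * (n * p - lam / k * kS) =
        2 * p / (1 - lam) - 2 * (lam / (k * (n * (1 - lam)))) * kS := by
      field_simp
    rw [e12, e13, e14, e15]
    have e16 : 2 * p / q = 2 * (p / q) := by ring
    rw [e16]
    linarith
  linarith

/-- the diagonal matrices `1 + x u` -/
theorem PAP (hk : kap ι lam ≠ 0) {u : m → ℝ}
    (hS : ∑ j, P j = diagonal (fun a => kap ι lam * (1 + u a))) (x : ℝ) (j : ι) :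
    P j * diagonal (fun a => 1 + x * u a) * P j = P j := by
  have : diagonal (fun a => 1 + x * u a) = (1 - x) • (1 : Matrix m m ℝ) +
      (x / kap ι lam) • ∑ j, P j := by
    rw [hS, smul_one_eq_diagonal, ← diagonal_smul, diagonal_add]
    congr 1
    funext a
    simp only [Pi.smul_apply, smul_eq_mul]
    field_simp
    ring
  rw [this, mul_add, add_mul, mul_smul_comm, mul_smul_comm, smul_mul_assoc, smul_mul_assoc,
    mul_one, h.idem, h.PSP, smul_smul, ← add_smul]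
  have : 1 - x + x / kap ι lam * kap ι lam = 1 := by field_simp; ring
  rw [this, one_smul]

theorem master (hn : 0 < n) (hl0 : 0 ≤ lam) (hl : lam < 1) (hp : 2 ≤ Fintype.card ι)
    {u : m → ℝ} (hS : ∑ j, P j = diagonal (fun a => kap ι lam * (1 + u a)))
    (hsum : (∑ a, u a) = - (∑ a, u a ^ 2)) (th ga : ℝ) :
    (n * (n + 1) / 2 - 1) * Fintype.card ι / (1 + ((Fintype.card ι : ℝ) - 1) * lam ^ 2)
      + Fintype.card ι ≤
      (Fintype.card m : ℝ) * ((Fintype.card m : ℝ) + 1) / 2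
      - 2 * th * ((Fintype.card m : ℝ) + 1) * (∑ a, u a ^ 2)
      + ga * ((∑ a, u a ^ 2) ^ 2 + (∑ a, u a ^ 2))
      + th ^ 2 * (((Fintype.card m : ℝ) + 2) * (∑ a, u a ^ 2) + (∑ a, u a ^ 2) ^ 2)
      + 2 * th * ga * ((∑ a, u a ^ 3) - (∑ a, u a ^ 2) ^ 2)
      + ga ^ 2 * ((∑ a, u a ^ 2) ^ 2 + (∑ a, u a ^ 4)) / 2
      + 2 * lam * kap ι lam / ((1 - lam) * n) *
        (2 * th * ((∑ a, u a ^ 2) + (∑ a, u a ^ 3))
          + ga * ((∑ a, u a ^ 2) + 2 * (∑ a, u a ^ 3) + (∑ a, u a ^ 4))) := by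
  have hp2 : (2 : ℝ) ≤ Fintype.card ι := by exact_mod_cast hp
  have hk0 : 0 < kap ι lam := by
    unfold kap
    have : 0 ≤ ((Fintype.card ι : ℝ) - 1) * lam := mul_nonneg (by linarith) hl0
    linarith
  set A : ℝ → Matrix m m ℝ := fun x => diagonal (fun a => 1 + x * u a) with hA
  have hAs : ∀ x, (A x)ᵀ = A x := fun x => diagonal_transpose _
  have hPAP : ∀ x j, P j * A x * P j = P j := fun x j => h.PAP hk0.ne' hS x j
  have t1 : ∀ x j, trace (A x * P j) = n := by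
    intro x j
    have : trace (A x * P j) = trace (P j * A x * P j) := by
      rw [trace_mul_cycle, h.idem, trace_mul_comm]
    rw [this, hPAP, h.tr]
  have t2 : ∀ x j, trace (A x * P j * A x * P j) = n := by
    intro x j
    rw [mul_assoc, mul_assoc, ← mul_assoc (P j), hPAP, t1]
  have s1 : ∀ x, sig (A x) ⬝ᵥ ∑ j, sig (P j) = Fintype.card ι * ((n ^ 2 + n) / 2) := by
    intro x
    rw [dotProduct_sum]
    have : ∀ j, sig (A x) ⬝ᵥ sig (P j) = (n ^ 2 + n) / 2 := by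
      intro j
      rw [sig_sig _ _ (hAs x) (h.sym j), t1, t2]
    simp only [this, sum_const, card_univ, nsmul_eq_mul]
  have s2 : ∀ x, sig (A x) ⬝ᵥ ∑ j, tau (P j) = Fintype.card ι * n := by
    intro x
    rw [dotProduct_sum]
    have : ∀ j, sig (A x) ⬝ᵥ tau (P j) = n := by
      intro j
      rw [sig_tau _ _ (hAs x) (h.sym j), t2]
    simp only [this, sum_const, card_univ, nsmul_eq_mul]
  have s3 : ∀ x, sig (A x) ⬝ᵥ tau (∑ j, P j) =
      kap ι lam ^ 2 * ∑ a, (1 + u a) ^ 2 * (1 + x * u a) ^ 2 := by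
    intro x
    rw [sig_tau _ _ (hAs x) h.Ssym, hS]
    simp only [hA, diagonal_mul_diagonal, trace_diagonal]
    rw [mul_sum]
    refine sum_congr rfl fun a _ => ?_
    ring
  have s4 : ∀ x y, sig (A x) ⬝ᵥ sig (A y) = ((∑ a, (1 + x * u a) * (1 + y * u a)) ^ 2 +
      ∑ a, ((1 + x * u a) * (1 + y * u a)) ^ 2) / 2 := by
    intro x y
    rw [sig_sig _ _ (hAs x) (hAs y)]
    simp only [hA, diagonal_mul_diagonal, trace_diagonal]
    congr 2
    refine sum_congr rfl fun a _ => ?_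
    ring
  set D := ∑ a, u a ^ 2 with hD
  set w3 := ∑ a, u a ^ 3 with hw3
  set w4 := ∑ a, u a ^ 4 with hw4
  set r : ℝ := (Fintype.card m : ℝ) with hr
  have e4 : ∀ x y, ∑ a, (1 + x * u a) * (1 + y * u a) = r - (x + y) * D + x * y * D := by
    intro x y
    have : ∀ a, (1 + x * u a) * (1 + y * u a) = 1 + (x + y) * u a + x * y * u a ^ 2 :=
      fun a => by ring
    simp only [this, sum_add_distrib, ← mul_sum, sum_const, card_univ, nsmul_eq_mul, mul_one, hsum]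
    ring
  have e5 : ∀ x y, ∑ a, ((1 + x * u a) * (1 + y * u a)) ^ 2 =
      r - 2 * (x + y) * D + ((x + y) ^ 2 + 2 * (x * y)) * D + 2 * (x + y) * (x * y) * w3
        + (x * y) ^ 2 * w4 := by
    intro x y
    have : ∀ a, ((1 + x * u a) * (1 + y * u a)) ^ 2 = 1 + 2 * (x + y) * u a +
        ((x + y) ^ 2 + 2 * (x * y)) * u a ^ 2 + 2 * (x + y) * (x * y) * u a ^ 3 +
        (x * y) ^ 2 * u a ^ 4 := fun a => by ring
    simp only [this, sum_add_distrib, ← mul_sum, sum_const, card_univ, nsmul_eq_mul, mul_one, hsum]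
    ring
  have e6 : ∀ x, ∑ a, (1 + u a) ^ 2 * (1 + x * u a) ^ 2 =
      r - D + 2 * x * (D + w3) + x ^ 2 * (D + 2 * w3 + w4) := by
    intro x
    have : ∀ a, (1 + u a) ^ 2 * (1 + x * u a) ^ 2 = 1 + (2 + 2 * x) * u a +
        (1 + 4 * x + x ^ 2) * u a ^ 2 + (2 * x + 2 * x ^ 2) * u a ^ 3 + x ^ 2 * u a ^ 4 :=
      fun a => by ring
    simp only [this, sum_add_distrib, ← mul_sum, sum_const, card_univ, nsmul_eq_mul, mul_one, hsum]
    ring
  set c1 := (ga + th) / 2 with hc1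
  set c2 := (ga - th) / 2 with hc2
  set K0 := c1 • sig (A 1) + c2 • sig (A (-1)) + (1 - ga) • sig (A 0) with hK0
  have g1 : K0 ⬝ᵥ ∑ j, sig (P j) = Fintype.card ι * ((n ^ 2 + n) / 2) := by
    rw [hK0]
    simp only [add_dotProduct, smul_dotProduct, s1, smul_eq_mul]
    rw [hc1, hc2]; ring
  have g2 : K0 ⬝ᵥ ∑ j, tau (P j) = Fintype.card ι * n := by
    rw [hK0]
    simp only [add_dotProduct, smul_dotProduct, s2, smul_eq_mul]
    rw [hc1, hc2]; ring
  have g3 : K0 ⬝ᵥ tau (∑ j, P j) = kap ι lam ^ 2 * (r - D + 2 * th * (D + w3)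
      + ga * (D + 2 * w3 + w4)) := by
    rw [hK0]
    simp only [add_dotProduct, smul_dotProduct, s3, smul_eq_mul, e6]
    rw [hc1, hc2]; ring
  have g4 : K0 ⬝ᵥ K0 = r * (r + 1) / 2 - 2 * th * (r + 1) * D + ga * (D ^ 2 + D)
      + th ^ 2 * ((r + 2) * D + D ^ 2) + 2 * th * ga * (w3 - D ^ 2)
      + ga ^ 2 * (D ^ 2 + w4) / 2 := by
    rw [hK0]
    simp only [add_dotProduct, smul_dotProduct, dotProduct_add, dotProduct_smul, s4, smul_eq_mul,
      e4, e5]
    rw [hc1, hc2]; ring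
  have hfin := h.master_aux hn hl0 hl hp K0 _ _ g4 g3 g1 g2
  -- the relation `(r - D) kap = n p`
  have hrho : (r - D) * kap ι lam = n * Fintype.card ι := by
    have := h.trS
    rw [hS, trace_diagonal, ← mul_sum] at this
    simp only [sum_add_distrib, hsum, sum_const, card_univ, nsmul_eq_mul, mul_one] at this
    rw [← this]; ring
  have h1l : 0 < 1 - lam := by linarith
  have hfin2 : 2 / (n * (1 - lam)) * (n * (Fintype.card ι : ℝ) - lam / kap ι lam *
      (kap ι lam ^ 2 * (r - D + 2 * th * (D + w3) + ga * (D + 2 * w3 + w4)))) =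
      2 * (Fintype.card ι : ℝ) - 2 * lam * kap ι lam / ((1 - lam) * n) *
        (2 * th * (D + w3) + ga * (D + 2 * w3 + w4)) := by
    have : lam / kap ι lam * (kap ι lam ^ 2 * (r - D + 2 * th * (D + w3)
        + ga * (D + 2 * w3 + w4))) = lam * ((r - D) * kap ι lam) +
        lam * kap ι lam * (2 * th * (D + w3) + ga * (D + 2 * w3 + w4)) := by
      field_simp; ring
    rw [this, hrho]
    field_simp
    ring
  rw [hfin2] at hfin
  linarith

end MCfg

end Pool.Agent.EI28
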