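import Pool.Agent.EI28.Upper
import Pool.Agent.EI97.Planes

set_option autoImplicit false

/-! The bound for planes in real space. -/

namespace Pool.Agent.EI28

open Matrix Finset Module Pool.Agent.H32Iso

theorem RData.planes {m : Type*} [Fintype m] {p lam kp : ℝ} {u : m → ℝ}
    (h : RData m 2 p lam kp u) (hcard : 4 ≤ Fintype.card m)
    (hp : p = ((Fintype.card m ^ 2 / 4 : ℕ) : ℝ) + 1) : False := by
  refine Pool.Agent.EI97.planes_of u p lam kp h.lam0 h.lam1 h.two h.kap h.sum h.rho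
    (fun th => ?_) hcard hp
  have := h.master th (-1)
  have e : (2 * (2 + 1) / 2 - 1 : ℝ) = 2 := by norm_num
  rw [e] at this
  exact this

theorem planes_upper {r p : ℕ} (hr : 4 ≤ r) (hp : p ∈ sizes ℝ 2 r) : p ≤ r ^ 2 / 4 := by
  by_contra hcon
  have hq : r ^ 2 / 4 + 1 ≤ p := by omega
  have h4 : 2 ≤ r ^ 2 / 4 + 1 := by
    have : 4 ≤ r ^ 2 := by nlinarith
    omega
  obtain ⟨lam, kp, u, h⟩ := rdata_sub (F := ℝ) (n := 2) (by norm_num) h4 hq hp
  have e : ((finrank ℝ ℝ * 2 : ℕ) : ℝ) = 2 := by simp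
  rw [e] at h
  have hc : Fintype.card (Fin (finrank ℝ ℝ * r)) = r := by simp
  refine h.planes (by rw [hc]; exact hr) ?_
  rw [hc]
  push_cast
  ring

/-- If `ℂ ^ d` contains `d ^ 2` equiangular lines then `v(2, 2 d, ℝ) = d ^ 2`. -/
theorem planes_exact {d : ℕ} (hd : 2 ≤ d) (h : d ^ 2 ∈ sizes ℝ 2 (2 * d)) :
    IsGreatest (sizes ℝ 2 (2 * d)) (d ^ 2) := by
  refine ⟨h, fun p hp => ?_⟩
  have h1 := planes_upper (by omega) hp
  have h2 : (2 * d) ^ 2 / 4 = d ^ 2 := by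
    have : (2 * d) ^ 2 = 4 * d ^ 2 := by ring
    rw [this, Nat.mul_div_cancel_left _ (by norm_num)]
  rwa [h2] at h1

end Pool.Agent.EI28
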