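import Pool.Agent.EI28.Frame
import Pool.Agent.EI28.Master
import Pool.Agent.EI28.Data

set_option autoImplicit false
set_option linter.unusedSectionVars false

/-! From a configuration with diagonal sum to the real data. -/

namespace Pool.Agent.EI28

open Matrix Finset

variable {m ι : Type*} [Fintype m] [DecidableEq m] [Fintype ι] [DecidableEq ι]

namespace MCfg

variable {n lam : ℝ} {P : ι → Matrix m m ℝ} (h : MCfg n lam P)

include h

theorem entry_sym (i : ι) (a b : m) : P i a b = P i b a := by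
  conv_lhs => rw [← h.sym i]
  rfl

theorem diag_eq (i : ι) (a : m) : P i a a = ∑ b, P i a b ^ 2 := by
  conv_lhs => rw [← h.idem i]
  rw [mul_apply]
  refine sum_congr rfl fun b _ => ?_
  rw [h.entry_sym i b a]; ring

theorem diag_nonneg (i : ι) (a : m) : 0 ≤ P i a a := by
  rw [h.diag_eq]
  exact sum_nonneg fun b _ => sq_nonneg _

theorem mu_eq {mu : m → ℝ} (hS : ∑ j, P j = diagonal mu) (a : m) : mu a = ∑ i, P i a a := by
  have := congrFun (congrFun hS a) a
  rw [Matrix.sum_apply, diagonal_apply_eq] at this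
  exact this.symm

theorem mu_nonneg {mu : m → ℝ} (hS : ∑ j, P j = diagonal mu) (a : m) : 0 ≤ mu a := by
  rw [h.mu_eq hS]
  exact sum_nonneg fun i _ => h.diag_nonneg i a

theorem top_bound (hn : 0 < n) (hl : lam < 1) (hk : 0 < kap ι lam) {mu : m → ℝ}
    (hS : ∑ j, P j = diagonal mu) (a : m) :
    mu a ≤ kap ι lam + n * (1 - lam) * ((Fintype.card m : ℝ) - 1) / 2 := by
  have hmu := h.mu_eq hS
  have hmu0 := h.mu_nonneg hS
  have hcard : (1 : ℝ) ≤ Fintype.card m := by
    have : 0 < Fintype.card m := Fintype.card_pos_iff.mpr ⟨a⟩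
    exact_mod_cast this
  have hpos : 0 ≤ n * (1 - lam) * ((Fintype.card m : ℝ) - 1) / 2 := by
    have : 0 ≤ n * (1 - lam) * ((Fintype.card m : ℝ) - 1) :=
      mul_nonneg (mul_nonneg hn.le (by linarith)) (by linarith)
    linarith
  have hL := h.ineqL hn hl hk (Pi.single a 1) (by simp)
  have hy : ∀ A : Matrix m m ℝ, (Pi.single a 1 : m → ℝ) ⬝ᵥ (A *ᵥ Pi.single a 1) = A a a := by
    intro A
    rw [single_one_dotProduct, mulVec_single_one]
    rfl
  have hSS : ((∑ j, P j) *ᵥ Pi.single a 1) ⬝ᵥ ((∑ j, P j) *ᵥ Pi.single a 1) = mu a ^ 2 := by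
    rw [hS, diagonal_mulVec_single, mul_one, single_dotProduct, Pi.single_eq_same]; ring
  rw [hSS, hy] at hL
  simp only [hy] at hL
  rw [hS, diagonal_apply_eq, sub_self, mul_zero, mul_zero, sub_zero, sum_sub_distrib, ← hmu] at hL
  -- sum of squares
  have hsq : mu a * ∑ i, P i a a ^ 2 ≤ kap ι lam * mu a := by
    rw [hmu a, mul_sum, mul_sum, ← hmu a]
    refine sum_le_sum fun i _ => ?_
    have h1 := congrFun (congrFun (h.PSP i) a) a
    rw [hS, Matrix.smul_apply, smul_eq_mul] at h1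
    rw [← h1, mul_apply]
    have h2 : ∀ b, (P i * diagonal mu) a b * P i b a = mu b * P i a b ^ 2 := by
      intro b
      rw [mul_diagonal, h.entry_sym i b a]; ring
    simp only [h2]
    exact single_le_sum (f := fun b => mu b * P i a b ^ 2)
      (fun b _ => mul_nonneg (hmu0 b) (sq_nonneg _)) (mem_univ a)
  rcases (hmu0 a).eq_or_lt with h0 | h0
  · rw [← h0]; linarith
  · have : ∑ i, P i a a ^ 2 ≤ kap ι lam := by
      have : mu a * ∑ i, P i a a ^ 2 ≤ mu a * kap ι lam := by linarith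
      exact le_of_mul_le_mul_left this h0
    linarith

theorem lam_bound (hn : 0 < n) (hl0 : 0 ≤ lam) (hl : lam < 1) (hk : 0 < kap ι lam) {mu : m → ℝ}
    (hS : ∑ j, P j = diagonal mu) (i0 : ι) :
    2 * (((Fintype.card ι : ℝ) - 1) * lam) ≤
      (1 + lam) * (n * ((Fintype.card m : ℝ) - 1)) := by
  -- a unit vector in the range of `P i0`
  have hne : P i0 ≠ 0 := by
    intro h0
    have := h.tr i0
    rw [h0, trace_zero] at this
    linarith
  obtain ⟨v, hv⟩ : ∃ v, P i0 *ᵥ v ≠ 0 := by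
    by_contra hcon
    push Not at hcon
    apply hne
    ext a b
    have := congrFun (hcon (Pi.single b 1)) a
    rw [mulVec_single_one] at this
    exact this
  set w := P i0 *ᵥ v with hw
  have hww : 0 < w ⬝ᵥ w := by
    have h1 : 0 ≤ w ⬝ᵥ w := sum_nonneg fun i _ => mul_self_nonneg _
    rcases h1.eq_or_lt with h2 | h2
    · exact absurd (dotProduct_self_eq_zero.mp h2.symm) hv
    · exact h2
  set s := Real.sqrt (w ⬝ᵥ w) with hs
  have hs2 : s * s = w ⬝ᵥ w := Real.mul_self_sqrt hww.le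
  have hs0 : s ≠ 0 := by
    intro h0
    rw [h0] at hs2
    linarith
  set e := s⁻¹ • w with he
  have hee : e ⬝ᵥ e = 1 := by
    rw [he, smul_dotProduct, dotProduct_smul, ← hs2]
    simp only [smul_eq_mul]
    field_simp
  have hPe : P i0 *ᵥ e = e := by
    rw [he, mulVec_smul, hw, mulVec_mulVec, h.idem]
  have hconj : ∀ A : Matrix m m ℝ, e ⬝ᵥ (A *ᵥ e) = e ⬝ᵥ ((P i0 * A * P i0) *ᵥ e) := by
    intro A
    rw [← mulVec_mulVec, ← mulVec_mulVec, ← sym_dot (h.sym i0), hPe]
  have hyj : ∀ j, e ⬝ᵥ (P j *ᵥ e) = if i0 = j then 1 else lam := by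
    intro j
    split_ifs with hj
    · rw [← hj, hPe, hee]
    · rw [hconj, h.iso i0 j hj, smul_mulVec, hPe, dotProduct_smul, hee, smul_eq_mul, mul_one]
  have hyS : e ⬝ᵥ ((∑ j, P j) *ᵥ e) = kap ι lam := by
    rw [hconj, h.PSP, smul_mulVec, hPe, dotProduct_smul, hee, smul_eq_mul, mul_one]
  have hmu0 := h.mu_nonneg hS
  have hSS : ((∑ j, P j) *ᵥ e) ⬝ᵥ ((∑ j, P j) *ᵥ e) ≤
      (kap ι lam + n * (1 - lam) * ((Fintype.card m : ℝ) - 1) / 2) * kap ι lam := by
    have e1 : e ⬝ᵥ (diagonal mu *ᵥ e) = kap ι lam := by rw [← hS]; exact hyS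
    have e2 : (diagonal mu *ᵥ e) ⬝ᵥ (diagonal mu *ᵥ e) = ∑ b, mu b * (mu b * (e b * e b)) := by
      simp only [dotProduct, mulVec_diagonal]
      exact sum_congr rfl fun b _ => by ring
    have e3 : e ⬝ᵥ (diagonal mu *ᵥ e) = ∑ b, mu b * (e b * e b) := by
      simp only [dotProduct, mulVec_diagonal]
      exact sum_congr rfl fun b _ => by ring
    rw [hS, e2]
    calc ∑ b, mu b * (mu b * (e b * e b))
        ≤ ∑ b, (kap ι lam + n * (1 - lam) * ((Fintype.card m : ℝ) - 1) / 2) *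
            (mu b * (e b * e b)) := by
          refine sum_le_sum fun b _ => ?_
          exact mul_le_mul_of_nonneg_right (h.top_bound hn hl hk hS b)
            (mul_nonneg (hmu0 b) (mul_self_nonneg _))
      _ = (kap ι lam + n * (1 - lam) * ((Fintype.card m : ℝ) - 1) / 2) * kap ι lam := by
          rw [← mul_sum, ← e3, e1]
  have hL := h.ineqL hn hl hk e hee
  rw [hyS] at hL
  have hsumy : ∑ i, (e ⬝ᵥ (P i *ᵥ e) - (e ⬝ᵥ (P i *ᵥ e)) ^ 2) =
      ((Fintype.card ι : ℝ) - 1) * (lam * (1 - lam)) := by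
    have : ∀ i, e ⬝ᵥ (P i *ᵥ e) - (e ⬝ᵥ (P i *ᵥ e)) ^ 2 =
        (if i0 = i then - (lam * (1 - lam)) else 0) + lam * (1 - lam) := by
      intro i
      rw [hyj]
      split_ifs <;> ring
    simp only [this, sum_add_distrib, sum_ite_eq, mem_univ, if_true, sum_const, card_univ,
      nsmul_eq_mul]
    ring
  rw [hsumy] at hL
  have hlk : lam / kap ι lam * (((∑ j, P j) *ᵥ e) ⬝ᵥ ((∑ j, P j) *ᵥ e) - kap ι lam ^ 2) ≤
      lam * (n * (1 - lam) * ((Fintype.card m : ℝ) - 1) / 2) := by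
    have h1 : ((∑ j, P j) *ᵥ e) ⬝ᵥ ((∑ j, P j) *ᵥ e) - kap ι lam ^ 2 ≤
        (n * (1 - lam) * ((Fintype.card m : ℝ) - 1) / 2) * kap ι lam := by
      linarith
    calc _ ≤ lam / kap ι lam * ((n * (1 - lam) * ((Fintype.card m : ℝ) - 1) / 2) *
          kap ι lam) := mul_le_mul_of_nonneg_left h1 (div_nonneg hl0 hk.le)
      _ = _ := by field_simp
  have h1l : 0 < 1 - lam := by linarith
  have hfin : (2 * (((Fintype.card ι : ℝ) - 1) * lam)) * (1 - lam) ≤
      ((1 + lam) * (n * ((Fintype.card m : ℝ) - 1))) * (1 - lam) := by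
    linarith
  exact le_of_mul_le_mul_right hfin h1l

theorem toRData (hn : 0 < n) (hl0 : 0 ≤ lam) (hl : lam < 1) (hp : 2 ≤ Fintype.card ι)
    {mu : m → ℝ} (hS : ∑ j, P j = diagonal mu) :
    RData m n (Fintype.card ι) lam (kap ι lam) (fun a => mu a / kap ι lam - 1) := by
  have hp2 : (2 : ℝ) ≤ Fintype.card ι := by exact_mod_cast hp
  have hk0 : 0 < kap ι lam := by
    unfold kap
    have : 0 ≤ ((Fintype.card ι : ℝ) - 1) * lam := mul_nonneg (by linarith) hl0
    linarith
  have i0 : ι := (Fintype.card_pos_iff.mp (by omega : 0 < Fintype.card ι)).some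
  have t1 : ∑ a, mu a = n * Fintype.card ι := by
    have := h.trS
    rwa [hS, trace_diagonal] at this
  have t2 : ∑ a, mu a ^ 2 = n * Fintype.card ι * kap ι lam := by
    have := h.trSS
    rw [hS, diagonal_mul_diagonal, trace_diagonal] at this
    rw [← this]
    exact sum_congr rfl fun a _ => by ring
  have hs1 : ∑ a, (mu a / kap ι lam - 1) = n * Fintype.card ι / kap ι lam - Fintype.card m := by
    rw [sum_sub_distrib, ← sum_div, t1]; simp
  have hs2 : ∑ a, (mu a / kap ι lam - 1) ^ 2 =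
      Fintype.card m - n * Fintype.card ι / kap ι lam := by
    have : ∀ a, (mu a / kap ι lam - 1) ^ 2 = mu a ^ 2 / kap ι lam ^ 2 - 2 * (mu a / kap ι lam)
        + 1 := fun a => by ring
    simp only [this, sum_add_distrib, sum_sub_distrib, ← mul_sum, ← sum_div, t1, t2, sum_const,
      card_univ, nsmul_eq_mul, mul_one]
    field_simp
    ring
  have hsum : ∑ a, (mu a / kap ι lam - 1) = - ∑ a, (mu a / kap ι lam - 1) ^ 2 := by
    rw [hs1, hs2]; ring
  refine ⟨hl0, hl, hp2, rfl, ?_, hsum, ?_, ?_, h.lam_bound hn hl0 hl hk0 hS i0, ?_⟩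
  · intro a
    have : 0 ≤ mu a / kap ι lam := div_nonneg (h.mu_nonneg hS a) hk0.le
    linarith
  · rw [hs2]; field_simp; ring
  · intro a
    have := h.top_bound hn hl hk0 hS a
    have e : kap ι lam * (mu a / kap ι lam - 1) = mu a - kap ι lam := by field_simp
    rw [e]; linarith
  · intro th ga
    refine h.master hn hl0 hl hp ?_ hsum th ga
    rw [hS]
    congr 1
    funext a
    field_simp
    ring

end MCfg

end Pool.Agent.EI28
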