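import Mathlib

set_option autoImplicit false

/-! Symmetric 4-tensors built from symmetric matrices, and their inner products. -/

namespace Pool.Agent.EI28

open Matrix Finset

variable {m : Type*} [Fintype m]

/-- the tensor of `X ↦ A X A` on symmetric matrices -/
noncomputable def sig (A : Matrix m m ℝ) : m × m × m × m → ℝ :=
  fun q => (A q.1 q.2.2.1 * A q.2.1 q.2.2.2 + A q.1 q.2.2.2 * A q.2.1 q.2.2.1) / 2

/-- the tensor `A ⊗ A` -/
def tau (A : Matrix m m ℝ) : m × m × m × m → ℝ :=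
  fun q => A q.1 q.2.1 * A q.2.2.1 q.2.2.2

theorem sum4 (f : m → m → m → m → ℝ) :
    ∑ q : m × m × m × m, f q.1 q.2.1 q.2.2.1 q.2.2.2 = ∑ a, ∑ b, ∑ c, ∑ d, f a b c d := by
  simp only [Fintype.sum_prod_type]

/-- `tr (A B A B)` as a sum over four indices, `A_ac B_cb A_bd B_da`. -/
theorem trace4 (A B : Matrix m m ℝ) :
    trace (A * B * A * B) = ∑ a, ∑ b, ∑ c, ∑ d, A a c * B c b * A b d * B d a := by
  simp only [trace, diag_apply, mul_apply, sum_mul]
  refine sum_congr rfl fun a _ => ?_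
  rw [sum_comm]
  refine sum_congr rfl fun b _ => ?_
  rw [sum_comm]

theorem trace2 (A B : Matrix m m ℝ) (hB : Bᵀ = B) :
    trace (A * B) = ∑ a, ∑ b, A a b * B a b := by
  simp only [trace, diag_apply, mul_apply]
  refine sum_congr rfl fun a _ => sum_congr rfl fun b _ => ?_
  rw [← hB, transpose_apply, hB]

theorem sig_sig (A B : Matrix m m ℝ) (hA : Aᵀ = A) (hB : Bᵀ = B) :
    sig A ⬝ᵥ sig B = ((trace (A * B)) ^ 2 + trace (A * B * A * B)) / 2 := by
  have hA' : ∀ a b, A a b = A b a := fun a b => by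
    conv_lhs => rw [← hA]
    rfl
  have hB' : ∀ a b, B a b = B b a := fun a b => by
    conv_lhs => rw [← hB]
    rfl
  have e1 : ∑ a, ∑ b, ∑ c, ∑ d, (A a c * B a c) * (A b d * B b d) = (trace (A * B)) ^ 2 := by
    rw [trace2 A B hB, sq, sum_mul_sum]
    refine sum_congr rfl fun a _ => sum_congr rfl fun b _ => ?_
    rw [sum_mul_sum]
  have e2 : ∑ a, ∑ b, ∑ c, ∑ d, (A a d * B a d) * (A b c * B b c) = (trace (A * B)) ^ 2 := by
    rw [← e1]
    refine sum_congr rfl fun a _ => sum_congr rfl fun b _ => ?_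
    rw [sum_comm]
  have e3 : ∑ a, ∑ b, ∑ c, ∑ d, A a c * A b d * (B a d * B b c) = trace (A * B * A * B) := by
    rw [trace4]
    refine sum_congr rfl fun a _ => sum_congr rfl fun b _ => sum_congr rfl fun c _ =>
      sum_congr rfl fun d _ => ?_
    rw [hB' a d, hB' b c]; ring
  have e4 : ∑ a, ∑ b, ∑ c, ∑ d, A a d * A b c * (B a c * B b d) = trace (A * B * A * B) := by
    rw [← e3]
    refine sum_congr rfl fun a _ => sum_congr rfl fun b _ => ?_
    rw [sum_comm]
  have : sig A ⬝ᵥ sig B = (∑ a, ∑ b, ∑ c, ∑ d, (A a c * B a c) * (A b d * B b d)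
      + ∑ a, ∑ b, ∑ c, ∑ d, (A a d * B a d) * (A b c * B b c)
      + ∑ a, ∑ b, ∑ c, ∑ d, A a c * A b d * (B a d * B b c)
      + ∑ a, ∑ b, ∑ c, ∑ d, A a d * A b c * (B a c * B b d)) / 4 := by
    unfold dotProduct sig
    rw [sum4 (fun a b c d => (A a c * A b d + A a d * A b c) / 2 *
      ((B a c * B b d + B a d * B b c) / 2))]
    simp only [← sum_add_distrib, sum_div]
    refine sum_congr rfl fun a _ => sum_congr rfl fun b _ => sum_congr rfl fun c _ =>
      sum_congr rfl fun d _ => ?_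
    ring
  rw [this, e1, e2, e3, e4]; ring

theorem sig_tau (A B : Matrix m m ℝ) (hA : Aᵀ = A) (hB : Bᵀ = B) :
    sig A ⬝ᵥ tau B = trace (A * B * A * B) := by
  have hA' : ∀ a b, A a b = A b a := fun a b => by
    conv_lhs => rw [← hA]
    rfl
  have hB' : ∀ a b, B a b = B b a := fun a b => by
    conv_lhs => rw [← hB]
    rfl
  have e1 : ∑ a, ∑ b, ∑ c, ∑ d, A a c * A b d * (B a b * B c d) = trace (A * B * A * B) := by
    rw [trace4]
    refine sum_congr rfl fun a _ => ?_
    -- rename b -> d, c -> c, d -> b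
    calc ∑ b, ∑ c, ∑ d, A a c * A b d * (B a b * B c d)
        = ∑ c, ∑ b, ∑ d, A a c * A b d * (B a b * B c d) := by rw [sum_comm]
      _ = ∑ c, ∑ d, ∑ b, A a c * A b d * (B a b * B c d) := by
          refine sum_congr rfl fun c _ => ?_
          rw [sum_comm]
      _ = ∑ d, ∑ c, ∑ b, A a c * A b d * (B a b * B c d) := by rw [sum_comm]
      _ = _ := by
          refine sum_congr rfl fun d _ => sum_congr rfl fun c _ => sum_congr rfl fun b _ => ?_
          rw [hA' b d, hB' a b]; ring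
  have e2 : ∑ a, ∑ b, ∑ c, ∑ d, A a d * A b c * (B a b * B c d) = trace (A * B * A * B) := by
    rw [← e1]
    refine sum_congr rfl fun a _ => sum_congr rfl fun b _ => ?_
    rw [sum_comm]
    refine sum_congr rfl fun c _ => sum_congr rfl fun d _ => ?_
    rw [hB' d c]
  have : sig A ⬝ᵥ tau B = (∑ a, ∑ b, ∑ c, ∑ d, A a c * A b d * (B a b * B c d)
      + ∑ a, ∑ b, ∑ c, ∑ d, A a d * A b c * (B a b * B c d)) / 2 := by
    unfold dotProduct sig tau
    rw [sum4 (fun a b c d => (A a c * A b d + A a d * A b c) / 2 * (B a b * B c d))]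
    simp only [← sum_add_distrib, sum_div]
    refine sum_congr rfl fun a _ => sum_congr rfl fun b _ => sum_congr rfl fun c _ =>
      sum_congr rfl fun d _ => ?_
    ring
  rw [this, e1, e2]; ring

theorem tau_tau (A B : Matrix m m ℝ) (hB : Bᵀ = B) :
    tau A ⬝ᵥ tau B = (trace (A * B)) ^ 2 := by
  have : tau A ⬝ᵥ tau B = ∑ a, ∑ b, ∑ c, ∑ d, (A a b * B a b) * (A c d * B c d) := by
    unfold dotProduct tau
    rw [sum4 (fun a b c d => A a b * A c d * (B a b * B c d))]
    refine sum_congr rfl fun a _ => sum_congr rfl fun b _ => sum_congr rfl fun c _ =>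
      sum_congr rfl fun d _ => ?_
    ring
  rw [this, trace2 A B hB, sq, sum_mul]
  refine sum_congr rfl fun a _ => ?_
  rw [sum_mul]
  refine sum_congr rfl fun b _ => ?_
  rw [mul_sum]
  refine sum_congr rfl fun c _ => ?_
  rw [mul_sum]

end Pool.Agent.EI28
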