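import Pool.Agent.EI28.Spectral
import Pool.Agent.H32Iso.Basic

set_option autoImplicit false

/-! From symmetric idempotents on a real inner product space to matrices with diagonal sum. -/

namespace Pool.Agent.EI28

open Matrix Finset Module Pool.Agent.H32Iso

variable {W : Type*} [NormedAddCommGroup W] [InnerProductSpace ℝ W] [FiniteDimensional ℝ W]
  {ι : Type*} [Fintype ι] [DecidableEq ι]

theorem exists_mcfg {lam : ℝ} {P : ι → W →ₗ[ℝ] W} (h : Cfg lam P) {r n : ℕ}
    (hW : finrank ℝ W = r) (hn : ∀ i, finrank ℝ (LinearMap.range (P i)) = n) :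
    ∃ (Q : ι → Matrix (Fin r) (Fin r) ℝ) (mu : Fin r → ℝ), MCfg (n : ℝ) lam Q ∧
      ∑ j, Q j = diagonal mu := by
  have hS : (∑ i, P i).IsSymmetric := by
    intro x y
    simp only [LinearMap.sum_apply, sum_inner, inner_sum]
    exact sum_congr rfl fun i _ => h.sym i x y
  set b := hS.eigenvectorBasis hW with hb
  have hmat : ∀ (f : W →ₗ[ℝ] W) (i j : Fin r),
      LinearMap.toMatrix b.toBasis b.toBasis f i j = inner ℝ (b i) (f (b j)) := by
    intro f i j
    rw [LinearMap.toMatrix_apply]
    simp [OrthonormalBasis.repr_apply_apply]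
  refine ⟨fun i => LinearMap.toMatrix b.toBasis b.toBasis (P i), hS.eigenvalues hW, ?_, ?_⟩
  · refine ⟨?_, ?_, ?_, ?_⟩
    · intro i
      ext a c
      rw [transpose_apply, hmat, hmat, ← h.sym, real_inner_comm]
    · intro i
      rw [← LinearMap.toMatrix_mul]
      congr 1
      ext x
      exact h.idem i x
    · intro i
      rw [← LinearMap.trace_eq_matrix_trace]
      have hproj : LinearMap.IsProj (LinearMap.range (P i)) (P i) := by
        refine ⟨fun x => LinearMap.mem_range_self _ x, ?_⟩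
        rintro _ ⟨y, rfl⟩
        exact h.idem i y
      rw [hproj.trace, hn i]
    · intro i j hij
      rw [← LinearMap.toMatrix_mul, ← LinearMap.toMatrix_mul, ← map_smul]
      congr 1
      ext x
      exact h.iso i j hij x
  · rw [← map_sum]
    ext a c
    rw [hmat, hS.apply_eigenvectorBasis hW, ← hb, inner_smul_right]
    rw [orthonormal_iff_ite.mp b.orthonormal, diagonal_apply]
    split_ifs with hac
    · rw [hac]; simp
    · simp

/-- the real data of a configuration -/
theorem exists_rdata {lam : ℝ} {P : ι → W →ₗ[ℝ] W} (h : Cfg lam P) {r n : ℕ}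
    (hW : finrank ℝ W = r) (hn : ∀ i, finrank ℝ (LinearMap.range (P i)) = n)
    (hn1 : 1 ≤ n) (hl0 : 0 ≤ lam) (hl1 : lam < 1) (hp : 2 ≤ Fintype.card ι) :
    ∃ (kp : ℝ) (u : Fin r → ℝ), RData (Fin r) (n : ℝ) (Fintype.card ι) lam kp u := by
  obtain ⟨Q, mu, hQ, hmu⟩ := exists_mcfg h hW hn
  exact ⟨_, _, hQ.toRData (by exact_mod_cast hn1) hl0 hl1 hp hmu⟩

end Pool.Agent.EI28
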