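import Pool.Agent.EI28.General
import Pool.Agent.EI28.ToMatrix
import Pool.Agent.H32Iso.Fields

set_option autoImplicit false

/-! The general upper bound in terms of subspaces. -/

namespace Pool.Agent.EI28

open Matrix Finset Module Pool.Agent.H32Iso

section

variable {F : Type} [NormedDivisionRing F] [InnerProductSpace ℝ F] [IsScalarTower ℝ F F]
  [FiniteDimensional ℝ F] {n r p : ℕ}

/-- the real data of `p ≥ 2` equi-isoclinic `n`-subspaces of `F ^ r` -/
theorem rdata_of_sizes (hn : 1 ≤ n) (hp2 : 2 ≤ p) (hp : p ∈ sizes F n r) :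
    ∃ (lam kp : ℝ) (u : Fin (finrank ℝ F * r) → ℝ),
      RData (Fin (finrank ℝ F * r)) ((finrank ℝ F * n : ℕ) : ℝ) p lam kp u := by
  obtain ⟨lam, V, h⟩ := hp
  have hF : 0 < finrank ℝ F := finrank_pos
  obtain ⟨kp, u, hu⟩ := exists_rdata h.cfg (finrank_Sp (F := F) r) h.finrank_range
    (Nat.mul_pos hF hn) h.nonneg h.lt_one (by simpa using hp2)
  rw [Fintype.card_fin] at hu
  exact ⟨lam, kp, u, hu⟩

/-- the real data of the first `q` members of a family of `p` equi-isoclinic subspaces -/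
theorem rdata_sub {q : ℕ} (hn : 1 ≤ n) (hq2 : 2 ≤ q) (hqp : q ≤ p) (hp : p ∈ sizes F n r) :
    ∃ (lam kp : ℝ) (u : Fin (finrank ℝ F * r) → ℝ),
      RData (Fin (finrank ℝ F * r)) ((finrank ℝ F * n : ℕ) : ℝ) q lam kp u := by
  obtain ⟨lam, V, h⟩ := hp
  have hF : 0 < finrank ℝ F := finrank_pos
  have hcfg : Cfg lam (fun i : Fin q => h.P (Fin.castLE hqp i)) :=
    ⟨fun i => h.cfg.sym _, fun i => h.cfg.idem _, fun i j hij => h.cfg.iso _ _
      (fun he => hij (Fin.castLE_injective hqp he))⟩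
  obtain ⟨kp, u, hu⟩ := exists_rdata hcfg (finrank_Sp (F := F) r)
    (fun i => h.finrank_range _) (Nat.mul_pos hF hn) h.nonneg h.lt_one (by simpa using hq2)
  rw [Fintype.card_fin] at hu
  exact ⟨lam, kp, u, hu⟩

theorem upper_arith {c n r p : ℕ} (hF : 0 < c) (hr : 32 * c ^ 2 * n ^ 3 ≤ r)
    (h : 2 ≤ p → 32 * ((c * n : ℕ) : ℝ) ^ 3 ≤ ((c * r : ℕ) : ℝ) →
      2 * ((c * n : ℕ) : ℝ) * p ≤ ((c * r : ℕ) : ℝ) * (((c * r : ℕ) : ℝ) + 2 - ((c * n : ℕ) : ℝ))) :
    2 * n * p + c * n * r ≤ r * (c * r + 2) := by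
  have hnr : n ≤ r := by
    have h1 : n ≤ n ^ 3 := Nat.le_self_pow (by norm_num) n
    have h2 : n ^ 3 ≤ 32 * c ^ 2 * n ^ 3 := Nat.le_mul_of_pos_left _ (by positivity)
    omega
  rcases Nat.lt_or_ge p 2 with h2 | h2
  · have h3 : n * p ≤ n := by
      calc n * p ≤ n * 1 := Nat.mul_le_mul_left _ (by omega)
        _ = n := mul_one n
    have h4 : c * n * r ≤ r * (c * r) := by
      calc c * n * r = r * (c * n) := by ring
        _ ≤ r * (c * r) := Nat.mul_le_mul_left _ (Nat.mul_le_mul_left _ hnr)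
    have h5 : 2 * n * p ≤ r * 2 := by
      calc 2 * n * p = 2 * (n * p) := by ring
        _ ≤ 2 * n := Nat.mul_le_mul_left _ h3
        _ ≤ r * 2 := by omega
    calc 2 * n * p + c * n * r ≤ r * 2 + r * (c * r) := Nat.add_le_add h5 h4
      _ = r * (c * r + 2) := by ring
  · have hcr : (0 : ℝ) < c := by exact_mod_cast hF
    have h1 := h h2 (by
      have : 32 * (c * n) ^ 3 ≤ c * r := by
        calc 32 * (c * n) ^ 3 = c * (32 * c ^ 2 * n ^ 3) := by ring
          _ ≤ c * r := Nat.mul_le_mul_left _ hr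
      exact_mod_cast this)
    push_cast at h1
    have h3 : (c : ℝ) * (2 * n * p + c * n * r) ≤ c * (r * (c * r + 2)) := by linarith
    have h4 := le_of_mul_le_mul_left h3 hcr
    exact_mod_cast h4

theorem upper_aux (hn : 1 ≤ n) (hr : 32 * finrank ℝ F ^ 2 * n ^ 3 ≤ r) (hp : p ∈ sizes F n r) :
    2 * n * p + finrank ℝ F * n * r ≤ r * (finrank ℝ F * r + 2) := by
  have hF : 0 < finrank ℝ F := finrank_pos
  refine upper_arith hF hr fun h2 h3 => ?_
  obtain ⟨lam, kp, u, h⟩ := rdata_of_sizes hn h2 hp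
  have h1 := h.general (by exact_mod_cast Nat.mul_pos hF hn) (by
    rw [Fintype.card_fin]; exact h3)
  rwa [Fintype.card_fin] at h1

end

end Pool.Agent.EI28
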